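import Pool.Agent.H24R2.JP.Polys
import Pool.Agent.H24R2.JP.Der
import Pool.Agent.H24R2.JP.ParCirc

/-!
# Descending to higher derivatives in a half plane (Gauss-Lucas)
-/

set_option autoImplicit false

namespace Pool.Agent.TH803.LG

open Complex Filter Metric Topology Polynomial Set
open Pool.Agent.H24R2.JP (App Par der gl)
open Pool.Agent.H24R2.JP.ParCircAux (hurw diff_iter diff_aeval closed_par)

/-- all roots in the half plane `re ≤ -δ` -/
def HP (δ : ℝ) (Q : ℝ[X]) : Prop := ∀ x : ℂ, aeval x Q = 0 → x.re ≤ -δ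

theorem hp_step {δ : ℝ} {Q : ℝ[X]} (hQ : derivative Q ≠ 0) (h : HP δ Q) : HP δ (derivative Q) := by
  intro x hx
  set P : ℂ[X] := Q.map (algebraMap ℝ ℂ) with hP
  have hd : 0 < P.degree := by
    rw [hP, degree_map]
    by_contra hcon
    push Not at hcon
    apply hQ
    rw [eq_C_of_degree_le_zero hcon, derivative_C]
  have hP0 : P ≠ 0 := by
    intro h0
    rw [h0] at hd
    simp at hd
  have hPd : derivative P ≠ 0 := by
    rw [hP, derivative_map]
    exact (Polynomial.map_ne_zero_iff (algebraMap ℝ ℂ).injective).2 hQ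
  have hmem : x ∈ P.derivative.rootSet ℂ := by
    rw [mem_rootSet]
    refine ⟨hPd, ?_⟩
    rw [hP, derivative_map, aeval_map_algebraMap]
    exact hx
  have h1 := rootSet_derivative_subset_convexHull_rootSet hd hmem
  have hconv : Convex ℝ {z : ℂ | z.re ≤ -δ} := convex_halfSpace_re_le (-δ)
  refine convexHull_min ?_ hconv h1
  intro z hz
  rw [mem_rootSet] at hz
  apply h z
  have := hz.2
  rw [hP, aeval_map_algebraMap] at this
  exact this

theorem hp_iter {δ : ℝ} {Q : ℝ[X]} (m : ℕ) (h : HP δ (derivative^[m] Q)) (k : ℕ)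
    (hk : derivative^[m + k] Q ≠ 0) : HP δ (derivative^[m + k] Q) := by
  induction k with
  | zero => exact h
  | succ k ih =>
    have e : derivative^[m + (k + 1)] Q = derivative (derivative^[m + k] Q) := by
      rw [← Nat.add_assoc, Function.iterate_succ_apply']
    rw [e] at hk ⊢
    refine hp_step hk (ih ?_)
    intro h0
    rw [h0] at hk
    simp at hk

theorem hp_ratio {δ : ℝ} {Q : ℝ[X]} (hδ : 0 ≤ δ) (h : HP δ Q) (h0 : aeval (0 : ℂ) Q ≠ 0) :
    0 ≤ (aeval (0 : ℂ) (derivative Q) / aeval (0 : ℂ) Q).re := by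
  set P : ℂ[X] := Q.map (algebraMap ℝ ℂ) with hP
  have e1 : ∀ R : ℝ[X], (R.map (algebraMap ℝ ℂ)).eval (0 : ℂ) = aeval (0 : ℂ) R := by
    intro R
    rw [eval_map_algebraMap]
  have h0' : P.eval (0 : ℂ) ≠ 0 := by rw [hP, e1]; exact h0
  have h2 := (IsAlgClosed.splits P).eval_derivative_div_eval_of_ne_zero h0'
  have e2 : P.derivative.eval 0 = aeval (0 : ℂ) (derivative Q) := by
    rw [hP, derivative_map, e1]
  rw [e2, hP, e1] at h2
  rw [h2]
  have h3 : ((Q.map (algebraMap ℝ ℂ)).roots.map fun z => 1 / ((0 : ℂ) - z)).sum.re =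
      ((Q.map (algebraMap ℝ ℂ)).roots.map fun z => (1 / ((0 : ℂ) - z)).re).sum := by
    have := map_multiset_sum Complex.reAddGroupHom
      ((Q.map (algebraMap ℝ ℂ)).roots.map fun z => 1 / ((0 : ℂ) - z))
    simpa [Multiset.map_map, Function.comp_def] using this
  rw [h3]
  apply Multiset.sum_nonneg
  intro x hx
  rw [Multiset.mem_map] at hx
  obtain ⟨z, hz, rfl⟩ := hx
  have hz1 : z.re ≤ -δ := by
    apply h z
    rw [mem_roots', IsRoot, eval_map_algebraMap] at hz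
    exact hz.2
  rw [zero_sub, one_div, Complex.inv_re, Complex.neg_re]
  apply div_nonneg (by linarith) (Complex.normSq_nonneg _)

theorem par_bdd {x : ℂ} (hx : x ∈ Par) (h : -1 ≤ x.re) : ‖x‖ ≤ 3 := by
  have h1 : x.re + x.im ^ 2 ≤ 1 / 4 := hx
  have h2 := Complex.norm_le_abs_re_add_abs_im x
  have h3 : |x.re| ≤ 1 := abs_le.2 ⟨h, by nlinarith [sq_nonneg x.im]⟩
  have h4 : |x.im| ≤ 2 := by
    apply abs_le_of_sq_le_sq _ (by norm_num)
    nlinarith
  linarith

theorem zero_par : (0 : ℂ) ∈ Par := by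
  show (0 : ℂ).re + (0 : ℂ).im ^ 2 ≤ 1 / 4
  norm_num

theorem compact_par (a : ℝ) (ha : -1 ≤ a) : IsCompact {x : ℂ | x ∈ Par ∧ a ≤ x.re} := by
  apply Metric.isCompact_of_isClosed_isBounded
  · exact closed_par.inter (isClosed_le continuous_const Complex.continuous_re)
  · refine (Metric.isBounded_closedBall (x := (0 : ℂ)) (r := 3)).subset ?_
    intro x hx
    rw [mem_closedBall_zero_iff]
    exact par_bdd hx.1 (ha.trans hx.2)

/-- a zero-free closed set can be enlarged -/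
theorem room {g : ℂ → ℂ} (hg : Continuous g) (hz : ∀ x ∈ Par, 0 ≤ x.re → g x ≠ 0) :
    ∃ δ : ℝ, 0 < δ ∧ δ ≤ 1 ∧ ∀ x ∈ Par, -δ ≤ x.re → g x ≠ 0 := by
  by_cases hne : ({x : ℂ | x ∈ Par ∧ -1 ≤ x.re} ∩ g ⁻¹' {0}).Nonempty
  · have hc : IsCompact ({x : ℂ | x ∈ Par ∧ -1 ≤ x.re} ∩ g ⁻¹' {0}) :=
      (compact_par (-1) le_rfl).inter_right (isClosed_singleton.preimage hg)
    obtain ⟨x0, hx0, hmax⟩ := hc.exists_isMaxOn hne Complex.continuous_re.continuousOn
    have h1 : x0.re < 0 := by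
      by_contra hcon
      exact hz x0 hx0.1.1 (not_lt.1 hcon) hx0.2
    have h2 : -1 ≤ x0.re := hx0.1.2
    refine ⟨-x0.re / 2, by linarith, by linarith, fun x hx hxr h0 => ?_⟩
    have h3 : x.re ≤ x0.re := hmax ⟨⟨hx, by linarith⟩, h0⟩
    linarith
  · refine ⟨1, one_pos, le_rfl, fun x hx hxr h0 => hne ⟨x, ⟨hx, hxr⟩, h0⟩⟩

theorem chain {f : ℂ → ℂ} (hf : Differentiable ℂ f) {P : ℕ → ℝ[X]} (hP : App f P) (n1 : ℕ)
    (hz : ∀ x ∈ Par, 0 ≤ x.re → iteratedDeriv n1 f x ≠ 0)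
    (hnt : ∀ n, ∃ x, iteratedDeriv n f x ≠ 0) (n : ℕ) (hn : n1 ≤ n) :
    iteratedDeriv n f 0 ≠ 0 ∧ 0 ≤ (iteratedDeriv (n + 1) f 0 / iteratedDeriv n f 0).re := by
  obtain ⟨δ, hδ, hδ1, hzδ⟩ := room (diff_iter hf n1).continuous hz
  have hcomp := compact_par (-δ) (by linarith)
  have hne : {x : ℂ | x ∈ Par ∧ -δ ≤ x.re}.Nonempty := ⟨0, zero_par, by simp; exact hδ.le⟩
  obtain ⟨w, hw, hmin⟩ := hcomp.exists_isMinOn hne (diff_iter hf n1).continuous.norm.continuousOn
  have hm : 0 < ‖iteratedDeriv n1 f w‖ := norm_pos_iff.2 (hzδ w hw.1 hw.2)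
  have hunif : TendstoUniformlyOn (fun (N : ℕ) (x : ℂ) => aeval x (derivative^[n1] (P N)))
      (iteratedDeriv n1 f) atTop {x : ℂ | x ∈ Par ∧ -δ ≤ x.re} :=
    (tendstoLocallyUniformlyOn_iff_forall_isCompact isOpen_univ).1
      ((der f P hP n1).1.tendstoLocallyUniformlyOn) _ (subset_univ _) hcomp
  have hev := (Metric.tendstoUniformlyOn_iff.1 hunif) _ hm
  have hHP : ∀ᶠ N in atTop, HP δ (derivative^[n1] (P N)) := by
    filter_upwards [hev] with N hN x hx
    have hne0 : derivative^[n1] (P N) ≠ 0 := by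
      intro h0
      have h1 := hN 0 ⟨zero_par, by simp; exact hδ.le⟩
      rw [h0, map_zero, dist_zero_right] at h1
      have h2 : ‖iteratedDeriv n1 f w‖ ≤ ‖iteratedDeriv n1 f 0‖ :=
        hmin ⟨zero_par, by simp; exact hδ.le⟩
      linarith
    have hxP : x ∈ Par := gl (P N) n1 (hP.1 N) hne0 x hx
    by_contra hcon
    push Not at hcon
    have h1 := hN x ⟨hxP, hcon.le⟩
    rw [hx, dist_zero_right] at h1
    have h2 : ‖iteratedDeriv n1 f w‖ ≤ ‖iteratedDeriv n1 f x‖ := hmin ⟨hxP, hcon.le⟩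
    linarith
  have hev0 : ∀ m : ℕ, ∀ᶠ N in atTop, derivative^[m] (P N) ≠ 0 := by
    intro m
    obtain ⟨b, hb⟩ := hnt m
    have h1 := (tendstoLocallyUniformlyOn_univ.2 (der f P hP m).1).tendsto_at (Set.mem_univ b)
    filter_upwards [h1.eventually_ne hb] with N hN h0
    apply hN
    rw [h0, map_zero]
  have hHPm : ∀ m : ℕ, n1 ≤ m → ∀ᶠ N in atTop, HP δ (derivative^[m] (P N)) := by
    intro m hm1
    obtain ⟨k, rfl⟩ := Nat.exists_eq_add_of_le hm1
    filter_upwards [hHP, hev0 (n1 + k)] with N h1 h2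
    exact hp_iter n1 h1 k h2
  have hne1 : iteratedDeriv n f 0 ≠ 0 := by
    intro h0
    obtain ⟨b, hb⟩ := hnt n
    have hh := hurw (F := fun (N : ℕ) (x : ℂ) => aeval x (derivative^[n] (P N)))
      (fun N => diff_aeval _) (der f P hP n).1 (diff_iter hf n) h0 hb hδ
    obtain ⟨N, ⟨z, hz1, hz2⟩, hN⟩ := (hh.and (hHPm n hn)).exists
    have h1 := hN z hz2
    rw [sub_zero] at hz1
    have h2 := (abs_le.1 ((Complex.abs_re_le_norm z).trans hz1.le)).1
    have h3 : |z.re| ≤ ‖z‖ := Complex.abs_re_le_norm z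
    have h4 : δ ≤ |z.re| := by
      rw [abs_of_nonpos (by linarith)]
      linarith
    linarith
  refine ⟨hne1, ?_⟩
  have t0 := (tendstoLocallyUniformlyOn_univ.2 (der f P hP n).1).tendsto_at (Set.mem_univ (0 : ℂ))
  have t1 := (tendstoLocallyUniformlyOn_univ.2 (der f P hP (n + 1)).1).tendsto_at
    (Set.mem_univ (0 : ℂ))
  have t2 := (Complex.continuous_re.tendsto _).comp (t1.div t0 hne1)
  refine ge_of_tendsto t2 ?_
  filter_upwards [hHPm n hn, t0.eventually_ne hne1] with N h1 h2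
  have h3 := hp_ratio hδ.le h1 h2
  rw [Function.comp_apply, Pi.div_apply]
  rw [Function.iterate_succ_apply']
  exact h3

end Pool.Agent.TH803.LG
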