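import Pool.Agent.TH803.LG.Even
import Pool.Agent.TH803.LG.Chain
import Pool.Agent.H24R2.JP.Had
import Pool.Agent.H24R2.JP.Grow
import Pool.Agent.H24R2.JP.Zeros

/-!
# Growth, zeros and polynomial approximation of `FT t`
-/

set_option autoImplicit false

namespace Pool.Agent.TH803.LG

open Complex Filter Metric Topology Polynomial Set
open Pool.Agent.H24R2.JP (XX FF App Par had b1 grow zeros)
open Pool.Agent.H24R2.JP.B1h (FF_sq)

theorem par_sq (w : ℂ) : w ^ 2 ∈ Par ↔ |w.re| ≤ 1 / 2 := by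
  have e : w ^ 2 ∈ Par ↔ (w ^ 2).re + (w ^ 2).im ^ 2 ≤ 1 / 4 := Iff.rfl
  rw [e, sq w, Complex.mul_re, Complex.mul_im]
  constructor
  · intro h
    apply abs_le_of_sq_le_sq _ (by norm_num)
    nlinarith [sq_nonneg w.im, sq_nonneg w.re]
  · intro h
    have h1 : w.re ^ 2 ≤ 1 / 4 := by
      rw [← sq_abs]
      nlinarith [abs_nonneg w.re]
    nlinarith [mul_nonneg (sub_nonneg.2 h1) (sq_nonneg w.im)]

theorem XX_zero_re {z : ℂ} (h : XX z = 0) : |z.re| ≤ 1 / 2 := by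
  rw [← par_sq]
  apply zeros b1
  rw [FF_sq]
  exact h

theorem FT_zero {t : ℝ} {x : ℂ} (h : FT t x = 0) : x ∈ Par := by
  obtain ⟨z, hz⟩ := exists_sq x
  rw [← hz] at h ⊢
  rw [FT_sq] at h
  rw [par_sq]
  unfold EE at h
  rcases mul_eq_zero.1 h with h | h
  · have := XX_zero_re h
    simpa using this
  · have := XX_zero_re h
    simpa using this

theorem XX_growth : ∃ K : ℝ, 0 ≤ K ∧ ∀ z : ℂ, ‖XX z‖ ≤ Real.exp (K * (1 + ‖z‖ ^ 2) ^ (3 / 4 : ℝ)) := by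
  obtain ⟨K, hK⟩ := grow b1
  refine ⟨max K 0, le_max_right _ _, fun z => ?_⟩
  rw [← FF_sq z]
  refine (hK _).trans (Real.exp_le_exp.2 ?_)
  rw [norm_pow]
  exact mul_le_mul_of_nonneg_right (le_max_left _ _) (by positivity)

theorem FT_growth : ∃ K : ℝ, 0 ≤ K ∧ ∀ (t : ℝ) (x : ℂ),
    ‖FT t x‖ ≤ Real.exp (K * (2 + 2 * t ^ 2) ^ (3 / 4 : ℝ) * (1 + ‖x‖) ^ (3 / 4 : ℝ)) := by
  obtain ⟨K, hK0, hK⟩ := XX_growth
  refine ⟨2 * K, by linarith, fun t x => ?_⟩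
  obtain ⟨z, hz⟩ := exists_sq x
  rw [← hz, FT_sq]
  have key : ∀ w : ℂ, ‖w‖ ≤ |t| + ‖z‖ →
      ‖XX w‖ ≤ Real.exp (K * ((2 + 2 * t ^ 2) ^ (3 / 4 : ℝ) * (1 + ‖z ^ 2‖) ^ (3 / 4 : ℝ))) := by
    intro w hw
    refine (hK w).trans (Real.exp_le_exp.2 ?_)
    rw [← Real.mul_rpow (by positivity) (by positivity)]
    refine mul_le_mul_of_nonneg_left (Real.rpow_le_rpow (by positivity) ?_ (by norm_num)) hK0
    rw [norm_pow]
    have h1 : ‖w‖ ^ 2 ≤ (|t| + ‖z‖) ^ 2 := pow_le_pow_left₀ (norm_nonneg _) hw 2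
    have h2 : |t| ^ 2 = t ^ 2 := sq_abs t
    nlinarith [sq_nonneg (|t| - ‖z‖), mul_nonneg (sq_nonneg t) (sq_nonneg ‖z‖), sq_nonneg ‖z‖]
  have hIt : ‖I * (t : ℂ)‖ = |t| := by
    rw [norm_mul, Complex.norm_I, one_mul, Complex.norm_real, Real.norm_eq_abs]
  have h1 := key (I * t + z) ((norm_add_le _ _).trans (by rw [hIt]))
  have h2 := key (I * t - z) ((norm_sub_le _ _).trans (by rw [hIt]))
  unfold EE
  rw [norm_mul]
  calc ‖XX (I * t + z)‖ * ‖XX (I * t - z)‖ ≤ _ * _ :=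
        mul_le_mul h1 h2 (norm_nonneg _) (Real.exp_pos _).le
    _ = _ := by
        rw [← Real.exp_add]
        congr 1
        ring

/-- `XX` does not vanish to the right of `1/2` -/
theorem XX_ne {z : ℂ} (h : 1 / 2 < |z.re|) : XX z ≠ 0 := fun h0 => by
  have := XX_zero_re h0
  linarith

theorem FT_one_ne (t : ℝ) : FT t 1 ≠ 0 := by
  intro h
  have h1 : (1 : ℂ) ∈ Par := FT_zero h
  have h2 : (1 : ℂ).re + (1 : ℂ).im ^ 2 ≤ 1 / 4 := h1
  norm_num at h2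

theorem FT_app (t : ℝ) : ∃ P : ℕ → ℝ[X], App (FT t) P := by
  obtain ⟨K, hK0, hK⟩ := FT_growth
  set K' : ℝ := K * (2 + 2 * t ^ 2) ^ (3 / 4 : ℝ) with hK'
  have hK'0 : 0 ≤ K' := by positivity
  obtain ⟨P, hP1, hP2⟩ := had (fun x => FT t (x + 1)) (K' * 2) 
    ((FT_diff t).comp (differentiable_id.add_const 1))
    (by simpa using FT_one_ne t)
    (fun x => by
      have e : (starRingEnd ℂ) x + 1 = (starRingEnd ℂ) (x + 1) := by simp
      show FT t ((starRingEnd ℂ) x + 1) = _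
      rw [e, FT_conj])
    (fun x => by
      refine (hK t (x + 1)).trans (Real.exp_le_exp.2 ?_)
      rw [← hK', mul_assoc K' 2]
      refine mul_le_mul_of_nonneg_left ?_ hK'0
      have h1 : 1 + ‖x + 1‖ ≤ 2 * (1 + ‖x‖) := by
        have := norm_add_le x 1
        rw [norm_one] at this
        linarith [norm_nonneg x]
      calc (1 + ‖x + 1‖) ^ (3 / 4 : ℝ) ≤ (2 * (1 + ‖x‖)) ^ (3 / 4 : ℝ) :=
            Real.rpow_le_rpow (by positivity) h1 (by norm_num)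
        _ = 2 ^ (3 / 4 : ℝ) * (1 + ‖x‖) ^ (3 / 4 : ℝ) := Real.mul_rpow (by norm_num) (by positivity)
        _ ≤ 2 * (1 + ‖x‖) ^ (3 / 4 : ℝ) := by
            refine mul_le_mul_of_nonneg_right ?_ (by positivity)
            calc (2 : ℝ) ^ (3 / 4 : ℝ) ≤ 2 ^ (1 : ℝ) :=
                  Real.rpow_le_rpow_of_exponent_le (by norm_num) (by norm_num)
              _ = 2 := Real.rpow_one 2)
  refine ⟨fun N => (P N).comp (X - C 1), fun N x hx => ?_, ?_⟩
  · rw [aeval_comp] at hx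
    have h1 := hP1 N _ hx
    have h2 : aeval x (X - C (1 : ℝ)) + 1 = x := by simp
    rw [h2] at h1
    exact FT_zero h1
  · have h1 := hP2.comp (fun x : ℂ => x - 1) (by fun_prop)
    have e1 : ((fun x => FT t (x + 1)) ∘ fun x : ℂ => x - 1) = FT t := by
      funext x
      simp
    rw [e1] at h1
    refine h1.congr (fun N x => ?_) 
    simp [aeval_comp]

end Pool.Agent.TH803.LG
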