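import Pool.Agent.TH803.LG.Lap2

/-!
# Nonvanishing of the contour integral
-/

set_option autoImplicit false

namespace Pool.Agent.TH803.LG

open Complex Filter Topology MeasureTheory Set
open Pool.Agent.H986R2.K4 (S_LAP QQ lapQ)
open Pool.Agent.H986R2.K4.AWAux (convex_far cos_arc exp_I_re symm_deriv)
open Pool.Agent.H156R2.DZArc (growF gg gg_norm)

/-- the integrand -/
noncomputable def GI (F : ℂ → ℂ) (n : ℕ) (q : ℂ) (w : ℂ) : ℂ :=
  F w * F (-w) * ((1 - q / w ^ 2) ^ (n + 1))⁻¹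

theorem symm_neg {F : ℂ → ℂ} (hs : ∀ z : ℂ, F (-((starRingEnd ℂ) z)) = (starRingEnd ℂ) (F z)) (w : ℂ) :
    F (-w) = (starRingEnd ℂ) (F ((starRingEnd ℂ) w)) := by
  have := hs ((starRingEnd ℂ) w)
  rwa [Complex.conj_conj] at this

theorem logDeriv_neg {F : ℂ → ℂ} (hd : Differentiable ℂ F)
    (hs : ∀ z : ℂ, F (-((starRingEnd ℂ) z)) = (starRingEnd ℂ) (F z)) (w : ℂ) :
    logDeriv (fun z => F (-z)) w = (starRingEnd ℂ) (logDeriv F ((starRingEnd ℂ) w)) := by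
  have h1 : HasDerivAt (fun z => F (-z)) (-(deriv F (-w))) w := by
    have h2 : HasDerivAt F (deriv F (-w)) (-w) := (hd (-w)).hasDerivAt
    have := HasDerivAt.comp w h2 (hasDerivAt_neg w)
    simpa [Function.comp_def] using this
  have h3 := symm_deriv (ε := 1) (by simp) hd (by simpa using hs) ((starRingEnd ℂ) w)
  rw [Complex.conj_conj] at h3
  rw [logDeriv_apply, h1.deriv, h3, symm_neg hs w, logDeriv_apply, map_div₀]
  ring

theorem factor_logDeriv {n : ℕ} {q w : ℂ} (hw : 1 / 2 ≤ ‖w‖) (hq : ‖q‖ ≤ 1 / 100) (hn : 1 ≤ n) :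
    DifferentiableAt ℂ (fun w : ℂ => ((1 - q / w ^ 2) ^ (n + 1))⁻¹) w ∧
    ((1 - q / w ^ 2) ^ (n + 1))⁻¹ ≠ 0 ∧
    ‖logDeriv (fun w : ℂ => ((1 - q / w ^ 2) ^ (n + 1))⁻¹) w‖ ≤ 64 * ‖q‖ * n := by
  have hw0 : w ≠ 0 := by
    intro h; rw [h, norm_zero] at hw; linarith
  have hw2 : (1 / 4 : ℝ) ≤ ‖w‖ ^ 2 := by nlinarith
  have hw3 : (1 / 8 : ℝ) ≤ ‖w‖ ^ 3 := by
    have : ‖w‖ ^ 3 = ‖w‖ ^ 2 * ‖w‖ := by ring
    rw [this]; nlinarith
  have h1 : ‖q / w ^ 2‖ ≤ 4 * ‖q‖ := by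
    rw [norm_div, norm_pow, div_le_iff₀ (by linarith)]
    nlinarith [norm_nonneg q]
  have h2 : 1 / 2 ≤ ‖1 - q / w ^ 2‖ := by
    have := norm_sub_norm_le (1 : ℂ) (q / w ^ 2)
    rw [norm_one] at this
    linarith
  have h3 : (1 - q / w ^ 2) ≠ 0 := by
    intro h; rw [h, norm_zero] at h2; linarith
  have hr : HasDerivAt (fun w : ℂ => 1 - q / w ^ 2) (2 * q / w ^ 3) w := by
    have e1 : HasDerivAt (fun w : ℂ => w ^ 2) (2 * w) w := by
      simpa using hasDerivAt_pow 2 w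
    have e2 := ((hasDerivAt_const w q).fun_div e1 (pow_ne_zero 2 hw0)).const_sub 1
    refine e2.congr_deriv ?_
    field_simp
    ring
  have hp : HasDerivAt (fun w : ℂ => (1 - q / w ^ 2) ^ (n + 1))
      ((n + 1 : ℕ) * (1 - q / w ^ 2) ^ n * (2 * q / w ^ 3)) w := by
    have := hr.fun_pow (n + 1)
    simpa using this
  have hi := hp.fun_inv (pow_ne_zero _ h3)
  refine ⟨hi.differentiableAt, inv_ne_zero (pow_ne_zero _ h3), ?_⟩
  rw [logDeriv_apply, hi.deriv]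
  have e : -((n + 1 : ℕ) * (1 - q / w ^ 2) ^ n * (2 * q / w ^ 3)) / ((1 - q / w ^ 2) ^ (n + 1)) ^ 2 /
      ((1 - q / w ^ 2) ^ (n + 1))⁻¹ = -((n + 1 : ℕ) * (2 * q / w ^ 3)) / (1 - q / w ^ 2) := by
    generalize (1 - q / w ^ 2) = R at h3 ⊢
    generalize 2 * q / w ^ 3 = z
    rw [pow_succ]
    have hRn : R ^ n ≠ 0 := pow_ne_zero _ h3
    field_simp
    ring
  rw [e, norm_div, norm_neg, norm_mul, norm_div, norm_mul, norm_pow, Complex.norm_natCast]
  have hn1 : (1 : ℝ) ≤ n := by exact_mod_cast hn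
  have h4 : ‖(2 : ℂ)‖ = 2 := by simp
  rw [h4]
  have h5 : 2 * ‖q‖ / ‖w‖ ^ 3 ≤ 16 * ‖q‖ := by
    rw [div_le_iff₀ (by linarith)]
    nlinarith [norm_nonneg q]
  rw [div_le_iff₀ (by linarith)]
  push_cast
  have h6 : 0 ≤ ‖q‖ := norm_nonneg q
  calc ((n : ℝ) + 1) * (2 * ‖q‖ / ‖w‖ ^ 3) ≤ (2 * n) * (16 * ‖q‖) := by
        apply mul_le_mul (by linarith) h5 (by positivity) (by positivity)
    _ = 64 * ‖q‖ * n * (1 / 2) := by ring
    _ ≤ _ := by gcongr

theorem factor_norm {n : ℕ} {q w : ℂ} {q0 : ℝ} (hw : ‖w‖ = 1) (hq : ‖q‖ ≤ q0) (hq0 : q0 ≤ 1 / 100) :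
    ‖((1 - q / w ^ 2) ^ (n + 1))⁻¹‖ ≤ Real.exp (3 * q0 * (n + 1)) * ‖((1 - q / (1 : ℂ) ^ 2) ^ (n + 1))⁻¹‖ := by
  have hq00 : 0 ≤ q0 := (norm_nonneg q).trans hq
  have h1 : 1 - q0 ≤ ‖1 - q / w ^ 2‖ := by
    have := norm_sub_norm_le (1 : ℂ) (q / w ^ 2)
    rw [norm_one, norm_div, norm_pow, hw, one_pow, div_one] at this
    linarith
  have h2 : ‖1 - q / (1 : ℂ) ^ 2‖ ≤ 1 + q0 := by
    have := norm_sub_le (1 : ℂ) (q / (1 : ℂ) ^ 2)
    rw [norm_one, one_pow, div_one] at this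
    rw [one_pow, div_one]
    linarith
  have h3 : 0 < ‖1 - q / (1 : ℂ) ^ 2‖ := by
    have := norm_sub_norm_le (1 : ℂ) (q / (1 : ℂ) ^ 2)
    rw [norm_one, one_pow, div_one] at this
    rw [one_pow, div_one]
    linarith
  have h4 : 0 < 1 - q0 := by linarith
  rw [norm_inv, norm_inv, norm_pow, norm_pow]
  have e : Real.exp (3 * q0 * (n + 1)) = Real.exp (3 * q0) ^ (n + 1) := by
    rw [← Real.exp_nat_mul]
    congr 1
    push_cast
    ring
  rw [e, ← div_eq_mul_inv, le_div_iff₀ (by positivity), ← inv_pow, ← mul_pow]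
  apply pow_le_pow_left₀ (by positivity)
  have h5 : ‖1 - q / w ^ 2‖⁻¹ ≤ (1 - q0)⁻¹ := by gcongr
  calc ‖1 - q / w ^ 2‖⁻¹ * ‖1 - q / (1 : ℂ) ^ 2‖ ≤ (1 - q0)⁻¹ * (1 + q0) := by gcongr
    _ ≤ 1 + 3 * q0 := by
        rw [inv_mul_le_iff₀ h4]
        nlinarith
    _ ≤ Real.exp (3 * q0) := by linarith [Real.add_one_le_exp (3 * q0)]

theorem nv (κ : ℝ) (hκ : 0 < κ) (hκ2 : κ ≤ 1 / 2) : ∃ η q0 : ℝ, ∃ n0 : ℕ, 0 < η ∧ 0 < q0 ∧
    q0 ≤ 1 / 100 ∧ ∀ (n : ℕ) (F : ℂ → ℂ) (q : ℂ), n0 ≤ n → QQ κ 3 n η F → ‖q‖ ≤ q0 →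
    ∫ φ in (-(Real.pi / 2))..(Real.pi / 2), gg (GI F n q) (2 * n) 0 φ ≠ 0 := by
  obtain ⟨s, hs⟩ : ∃ s, s = κ / 5 := ⟨_, rfl⟩
  have hs0 : 0 < s := by rw [hs]; positivity
  have hs1 : s ≤ 1 / 10 := by rw [hs]; linarith
  obtain ⟨δ0, hδ0⟩ : ∃ δ0, δ0 = s ^ 2 / 10 := ⟨_, rfl⟩
  have hδ00 : 0 < δ0 := by rw [hδ0]; positivity
  obtain ⟨η1, n1, hη1, hn1, H⟩ := core2 lapQ κ (δ0 / 2) hκ hκ2 (by positivity)
  obtain ⟨η, hη⟩ : ∃ η, η = min (η1 / 2) (s ^ 2 / 20) := ⟨_, rfl⟩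
  have hη0 : 0 < η := by rw [hη]; exact lt_min (by positivity) (by positivity)
  have hηa : η ≤ η1 / 2 := by rw [hη]; exact min_le_left _ _
  have hηb : η ≤ s ^ 2 / 20 := by rw [hη]; exact min_le_right _ _
  obtain ⟨q0, hq0⟩ : ∃ q0, q0 = min (1 / 100) (min (η1 / 64) (δ0 / 6)) := ⟨_, rfl⟩
  have hq00 : 0 < q0 := by
    rw [hq0]; exact lt_min (by norm_num) (lt_min (by positivity) (by positivity))
  have hqa : q0 ≤ 1 / 100 := by rw [hq0]; exact min_le_left _ _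
  have hqb : q0 ≤ η1 / 64 := by rw [hq0]; exact (min_le_right _ _).trans (min_le_left _ _)
  have hqc : q0 ≤ δ0 / 6 := by rw [hq0]; exact (min_le_right _ _).trans (min_le_right _ _)
  refine ⟨η, q0, max n1 1, hη0, hq00, hqa, ?_⟩
  intro n F q hn hN hq
  have hn1' : n1 ≤ n := (le_max_left _ _).trans hn
  have hn1'' : 1 ≤ n := (le_max_right _ _).trans hn
  have hnr : (1 : ℝ) ≤ n := by exact_mod_cast hn1''
  have hnpos : (0 : ℝ) < n := by linarith
  have hFar : ∀ w : ℂ, 1 - κ ≤ w.re → ‖w‖ ≤ 3 → F w ≠ 0 ∧ ‖logDeriv F w - n‖ ≤ η * n := hN.far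
  have hS : ∀ w ∈ ({w : ℂ | 1 - κ ≤ w.re} ∩ Metric.closedBall 0 3), DifferentiableAt ℂ F w ∧ F w ≠ 0 ∧
      ‖logDeriv F w - ((n : ℝ) : ℂ)‖ ≤ η * n := by
    intro w hw
    have hw2 : ‖w‖ ≤ 3 := by simpa using hw.2
    exact ⟨hN.diff w, hN.far w hw.1 hw2⟩
  have hone : (1 : ℂ) ∈ ({w : ℂ | 1 - κ ≤ w.re} ∩ Metric.closedBall 0 3) := by
    refine ⟨?_, ?_⟩
    · show 1 - κ ≤ (1 : ℂ).re
      rw [Complex.one_re]; linarith
    · rw [Metric.mem_closedBall, dist_zero_right, norm_one]; norm_num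
  apply H (2 * n) 0 (GI F n q) (by omega)
  · -- the ball
    intro w hw
    rw [zero_add, Metric.mem_ball, dist_eq_norm] at hw
    have hwre : 1 - κ ≤ w.re := by
      have h1 := (abs_le.1 ((Complex.abs_re_le_norm (w - 1)).trans hw.le)).1
      rw [Complex.sub_re, Complex.one_re] at h1
      linarith
    have hwn : ‖w‖ ≤ 3 := by
      have h2 := norm_add_le (w - 1) 1
      rw [sub_add_cancel, norm_one] at h2
      linarith
    have hwn' : 1 / 2 ≤ ‖w‖ := by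
      have h2 := norm_sub_norm_le (1 : ℂ) (1 - w)
      rw [norm_one, sub_sub_cancel, norm_sub_rev] at h2
      linarith
    obtain ⟨f1, f2⟩ := hFar w hwre hwn
    obtain ⟨c1, c2⟩ := hFar ((starRingEnd ℂ) w) (by simpa using hwre) (by rw [RCLike.norm_conj]; exact hwn)
    obtain ⟨g1, g2, g3⟩ := factor_logDeriv (n := n) (q := q) hwn' (hq.trans hqa) hn1''
    have hFn : F (-w) ≠ 0 := by
      rw [symm_neg hN.symm w]
      simpa using c1
    have hdn : DifferentiableAt ℂ (fun z => F (-z)) w :=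
      (hN.diff.comp differentiable_neg) w
    have hdiff : DifferentiableAt ℂ (fun z => F z * F (-z)) w := (hN.diff w).mul hdn
    have e0 : GI F n q = fun w => (fun z => F z * F (-z)) w * (fun w : ℂ => ((1 - q / w ^ 2) ^ (n + 1))⁻¹) w := rfl
    refine ⟨?_, ?_, ?_⟩
    · rw [e0]
      exact hdiff.mul g1
    · exact mul_ne_zero (mul_ne_zero f1 hFn) g2
    · have m1 : logDeriv (fun w => (fun z => F z * F (-z)) w * (fun w : ℂ => ((1 - q / w ^ 2) ^ (n + 1))⁻¹) w) w =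
          logDeriv (fun z => F z * F (-z)) w + logDeriv (fun w : ℂ => ((1 - q / w ^ 2) ^ (n + 1))⁻¹) w :=
        logDeriv_mul (f := fun z => F z * F (-z)) (g := fun w : ℂ => ((1 - q / w ^ 2) ^ (n + 1))⁻¹) w
          (mul_ne_zero f1 hFn) g2 hdiff g1
      have m2 : logDeriv (fun z => F z * F (-z)) w = logDeriv F w + logDeriv (fun z => F (-z)) w :=
        logDeriv_mul (f := F) (g := fun z => F (-z)) w f1 hFn (hN.diff w) hdn
      rw [e0, m1, m2, logDeriv_neg hN.diff hN.symm]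
      have e1 : logDeriv F w + (starRingEnd ℂ) (logDeriv F ((starRingEnd ℂ) w)) +
          logDeriv (fun w : ℂ => ((1 - q / w ^ 2) ^ (n + 1))⁻¹) w - ((2 * n : ℕ) : ℂ) =
          (logDeriv F w - n) + (starRingEnd ℂ) (logDeriv F ((starRingEnd ℂ) w) - n) +
          logDeriv (fun w : ℂ => ((1 - q / w ^ 2) ^ (n + 1))⁻¹) w := by
        rw [map_sub, map_natCast]
        push_cast
        ring
      rw [e1]
      refine (norm_add₃_le).trans ?_
      rw [RCLike.norm_conj]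
      push_cast
      have h1 : 64 * ‖q‖ * n ≤ η1 * n := by
        refine mul_le_mul_of_nonneg_right ?_ hnpos.le
        linarith
      have h2 : η * n ≤ η1 / 2 * n := mul_le_mul_of_nonneg_right hηa hnpos.le
      linarith
  · -- continuity
    unfold gg GI
    have h1 : Continuous fun φ : ℝ => F (0 + cexp (φ * I)) := hN.diff.continuous.comp (by fun_prop)
    have h2 : Continuous fun φ : ℝ => F (-(0 + cexp (φ * I))) := hN.diff.continuous.comp (by fun_prop)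
    have h3 : ∀ φ : ℝ, (0 + cexp (φ * I)) ^ 2 ≠ 0 := by
      intro φ
      rw [zero_add]
      exact pow_ne_zero _ (Complex.exp_ne_zero _)
    have h4 : Continuous fun φ : ℝ => (1 - q / (0 + cexp (φ * I)) ^ 2) ^ (n + 1) := by
      refine (continuous_const.sub (continuous_const.div (by fun_prop) h3)).pow _
    have h5 : ∀ φ : ℝ, (1 - q / (0 + cexp (φ * I)) ^ 2) ^ (n + 1) ≠ 0 := by
      intro φ
      refine pow_ne_zero _ ?_
      intro h
      have h6 := norm_sub_norm_le (1 : ℂ) (q / (0 + cexp (φ * I)) ^ 2)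
      rw [h, norm_zero, norm_one, zero_add, norm_div, norm_pow, Complex.norm_exp_ofReal_mul_I, one_pow,
        div_one] at h6
      linarith
    have h7 : ∀ φ : ℝ, (0 + cexp (φ * I) - 0) ^ (2 * n + 1) ≠ 0 := by
      intro φ
      rw [zero_add, sub_zero]
      exact pow_ne_zero _ (Complex.exp_ne_zero _)
    exact (((h1.mul h2).mul (h4.inv₀ h5)).div (by fun_prop) h7).mul (by fun_prop)
  · -- the rest of the arc
    intro φ hφ1 hφ2
    rw [← hs] at hφ1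
    rw [zero_add, zero_add]
    have hpi := Real.pi_pos
    have hpi2 : |φ| ≤ Real.pi := by linarith
    have hcos0 : 0 ≤ Real.cos φ := Real.cos_nonneg_of_mem_Icc ⟨by linarith [(abs_le.1 hφ2).1], (abs_le.1 hφ2).2⟩
    have hcos := cos_arc hs0.le hφ1 hpi2
    have hFb : ∀ w : ℂ, ‖w‖ = 1 → w.re = Real.cos φ → ‖F w‖ ≤ ‖F 1‖ * Real.exp (-(δ0 * n)) := by
      intro w hw1 hwre
      by_cases hc1 : 1 - κ ≤ w.re
      · have hwS : w ∈ ({w : ℂ | 1 - κ ≤ w.re} ∩ Metric.closedBall 0 3) :=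
          ⟨hc1, by rw [Metric.mem_closedBall, dist_zero_right]; linarith⟩
        have h3 := growF (convex_far κ 3) hS hone hwS
        refine h3.trans ?_
        refine mul_le_mul_of_nonneg_left (Real.exp_le_exp.2 ?_) (norm_nonneg _)
        have h5 : ‖w - 1‖ ≤ 2 := by
          refine (norm_sub_le _ _).trans ?_
          rw [hw1, norm_one]
          norm_num
        rw [Complex.one_re, hwre]
        have h7 : (n : ℝ) * (Real.cos φ - 1) ≤ n * (-(s ^ 2 / 5)) :=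
          mul_le_mul_of_nonneg_left hcos hnpos.le
        have h8 : η * n * ‖w - 1‖ ≤ s ^ 2 / 20 * n * 2 := by
          gcongr
        rw [hδ0]
        linarith
      · have h3 := hN.near w (by
          rw [hwre, abs_of_nonneg hcos0]
          rw [hwre] at hc1
          linarith) (by linarith)
        refine h3.trans ?_
        refine mul_le_mul_of_nonneg_left (Real.exp_le_exp.2 ?_) (norm_nonneg _)
        have h9 : δ0 ≤ κ / 2 := by
          rw [hδ0, hs]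
          nlinarith
        have := mul_le_mul_of_nonneg_right h9 hnpos.le
        linarith
    have hw1 : ‖cexp (φ * I)‖ = 1 := Complex.norm_exp_ofReal_mul_I φ
    have b1 := hFb (cexp (φ * I)) hw1 (exp_I_re φ)
    have b2 : ‖F (-cexp (φ * I))‖ ≤ ‖F 1‖ * Real.exp (-(δ0 * n)) := by
      rw [symm_neg hN.symm, RCLike.norm_conj]
      exact hFb _ (by rw [RCLike.norm_conj]; exact hw1) (by rw [Complex.conj_re]; exact exp_I_re φ)
    have b3 := factor_norm (n := n) hw1 hq hqa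
    have b4 : ‖F (-1)‖ = ‖F 1‖ := by
      rw [symm_neg hN.symm, RCLike.norm_conj, map_one]
    unfold GI
    rw [norm_mul, norm_mul, norm_mul, norm_mul, b4]
    calc ‖F (cexp (φ * I))‖ * ‖F (-cexp (φ * I))‖ * ‖((1 - q / cexp (φ * I) ^ 2) ^ (n + 1))⁻¹‖
        ≤ (‖F 1‖ * Real.exp (-(δ0 * n))) * (‖F 1‖ * Real.exp (-(δ0 * n))) *
          (Real.exp (3 * q0 * (n + 1)) * ‖((1 - q / (1 : ℂ) ^ 2) ^ (n + 1))⁻¹‖) := by
          gcongr
      _ = Real.exp (-(δ0 * n) + -(δ0 * n) + 3 * q0 * (n + 1)) *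
          (‖F 1‖ * ‖F 1‖ * ‖((1 - q / (1 : ℂ) ^ 2) ^ (n + 1))⁻¹‖) := by
          rw [Real.exp_add, Real.exp_add]; ring
      _ ≤ _ := by
          refine mul_le_mul_of_nonneg_right (Real.exp_le_exp.2 ?_) (by positivity)
          push_cast
          have h1 : 3 * q0 * (n + 1) ≤ 3 * q0 * (2 * n) := by gcongr; linarith
          have h2 : 6 * q0 * n ≤ δ0 * n := mul_le_mul_of_nonneg_right (by linarith) hnpos.le
          linarith

end Pool.Agent.TH803.LG
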