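import Pool.Agent.TH803.LG.Even
import Pool.Agent.TH803.LG.NV
import Pool.Agent.H24R2.JP.Arc

/-!
# Derivatives of `FT t` as contour integrals
-/

set_option autoImplicit false

namespace Pool.Agent.TH803.LG

open Complex Filter Topology MeasureTheory Set
open Pool.Agent.H24R2.JP (XX arc arcS)
open Pool.Agent.H156R2.DZArc (gg)

theorem gg_eq (t r : ℝ) (hr : 0 < r) (n : ℕ) (Y0 : ℂ) (φ : ℝ)
    (hne : ((r : ℂ) ^ 2 * cexp (I * ((2 * φ : ℝ) : ℂ)) - Y0) ≠ 0) :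
    FT t (((0 : ℝ) : ℂ) + ((r ^ 2 : ℝ) : ℂ) * cexp (I * ((2 * φ : ℝ) : ℂ))) *
      (((r ^ 2 : ℝ) : ℂ) * cexp (I * ((2 * φ : ℝ) : ℂ))) /
      (((0 : ℝ) : ℂ) + ((r ^ 2 : ℝ) : ℂ) * cexp (I * ((2 * φ : ℝ) : ℂ)) - Y0) ^ (n + 1) =
    (-I * ((r : ℂ) ^ (2 * n))⁻¹) *
      gg (GI (fun z => XX (I * t + (r : ℂ) * z)) n (Y0 / (r : ℂ) ^ 2)) (2 * n) 0 φ := by
  have hr0 : (r : ℂ) ≠ 0 := by exact_mod_cast hr.ne'
  obtain ⟨w, hw⟩ : ∃ w : ℂ, w = cexp (φ * I) := ⟨_, rfl⟩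
  have hw0 : w ≠ 0 := by rw [hw]; exact Complex.exp_ne_zero _
  have e1 : cexp (I * ((2 * φ : ℝ) : ℂ)) = w ^ 2 := by
    rw [hw, ← Complex.exp_nat_mul]
    congr 1
    push_cast
    ring
  rw [e1] at hne ⊢
  unfold gg
  rw [← hw]
  unfold GI
  have e2 : FT t (((0 : ℝ) : ℂ) + ((r ^ 2 : ℝ) : ℂ) * w ^ 2) =
      XX (I * t + (r : ℂ) * w) * XX (I * t - (r : ℂ) * w) := by
    have e3 : ((0 : ℝ) : ℂ) + ((r ^ 2 : ℝ) : ℂ) * w ^ 2 = ((r : ℂ) * w) ^ 2 := by push_cast; ring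
    rw [e3, FT_sq]
    rfl
  rw [e2]
  simp only [zero_add, sub_zero]
  have e5 : ((0 : ℝ) : ℂ) + ((r ^ 2 : ℝ) : ℂ) * w ^ 2 - Y0 =
      (r : ℂ) ^ 2 * w ^ 2 * (1 - Y0 / (r : ℂ) ^ 2 / w ^ 2) := by
    push_cast
    field_simp
    ring
  have hne2 : (1 - Y0 / (r : ℂ) ^ 2 / w ^ 2) ≠ 0 := by
    intro h
    apply hne
    have : (r : ℂ) ^ 2 * w ^ 2 - Y0 = (r : ℂ) ^ 2 * w ^ 2 * (1 - Y0 / (r : ℂ) ^ 2 / w ^ 2) := by
      field_simp
    rw [this, h, mul_zero]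
  have e7 : I * (t : ℂ) + (r : ℂ) * -w = I * t - r * w := by ring
  rw [e5]
  simp only [e7]
  have hI : -I * I = 1 := by rw [neg_mul, Complex.I_mul_I, neg_neg]
  have hrn : ((r : ℂ) ^ (2 * n)) ≠ 0 := pow_ne_zero _ hr0
  have hwn : w ^ (2 * n + 1) ≠ 0 := pow_ne_zero _ hw0
  rw [mul_pow, mul_pow, ← pow_mul, ← pow_mul]
  have e8 : (r : ℂ) ^ (2 * (n + 1)) = (r : ℂ) ^ (2 * n) * (r : ℂ) ^ 2 := by ring
  have e9 : w ^ (2 * (n + 1)) = w ^ (2 * n + 1) * w := by ring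
  rw [e8, e9]
  push_cast
  have hq : (1 - Y0 / (r : ℂ) ^ 2 / w ^ 2) ^ (n + 1) ≠ 0 := pow_ne_zero _ hne2
  field_simp
  linear_combination (XX (I * t + r * w) * XX (I * t - r * w)) * Complex.I_sq

theorem deriv_ne (t r : ℝ) (hr : 0 < r) (n : ℕ) (Y0 : ℂ) (hY : ‖Y0‖ < r ^ 2)
    (h : ∫ φ in (-(Real.pi / 2))..(Real.pi / 2),
      gg (GI (fun z => XX (I * t + (r : ℂ) * z)) n (Y0 / (r : ℂ) ^ 2)) (2 * n) 0 φ ≠ 0) :
    iteratedDeriv n (FT t) Y0 ≠ 0 := by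
  have hρ : 0 < r ^ 2 := by positivity
  have h1 := (arcS (FT t) n 0 (r ^ 2) Y0 hρ (fun ξ _ => FT_diff t ξ) (by simpa using hY)).1
  obtain ⟨g, hg⟩ : ∃ g : ℝ → ℂ, g = fun θ : ℝ =>
    FT t (((0 : ℝ) : ℂ) + ((r ^ 2 : ℝ) : ℂ) * cexp (I * (θ : ℂ))) *
      (((r ^ 2 : ℝ) : ℂ) * cexp (I * (θ : ℂ))) /
      (((0 : ℝ) : ℂ) + ((r ^ 2 : ℝ) : ℂ) * cexp (I * (θ : ℂ)) - Y0) ^ (n + 1) := ⟨_, rfl⟩
  have hne : ∀ θ : ℝ, (((0 : ℝ) : ℂ) + ((r ^ 2 : ℝ) : ℂ) * cexp (I * (θ : ℂ)) - Y0) ≠ 0 := by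
    intro θ h0
    have h2 : Y0 = ((r ^ 2 : ℝ) : ℂ) * cexp (I * (θ : ℂ)) := by
      rw [sub_eq_zero] at h0
      rw [← h0]; push_cast; ring
    rw [h2, norm_mul, mul_comm I, Complex.norm_exp_ofReal_mul_I, mul_one, Complex.norm_real,
      Real.norm_eq_abs, abs_of_pos hρ] at hY
    exact lt_irrefl _ hY
  have hgc : Continuous g := by
    rw [hg]
    refine Continuous.div ?_ (by fun_prop) (fun θ => pow_ne_zero _ (hne θ))
    exact ((FT_diff t).continuous.comp (by fun_prop)).mul (by fun_prop)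
  have hint : ∀ a b : ℝ, IntervalIntegrable g volume a b := fun a b => hgc.intervalIntegrable a b
  have h2 : iteratedDeriv n (FT t) Y0 = (n.factorial : ℂ) / (2 * Real.pi) *
      ∫ θ in (0 : ℝ)..(2 * Real.pi), g θ := by
    rw [h1]
    unfold arc
    rw [← mul_add]
    congr 1
    rw [hg] at hint ⊢
    exact intervalIntegral.integral_add_adjacent_intervals (hint _ _) (hint _ _)
  have hper : Function.Periodic g (2 * Real.pi) := by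
    intro θ
    rw [hg]
    have e : cexp (I * ((θ + 2 * Real.pi : ℝ) : ℂ)) = cexp (I * (θ : ℂ)) := by
      push_cast
      rw [mul_add, Complex.exp_add, show I * (2 * (Real.pi : ℂ)) = 2 * Real.pi * I by ring,
        Complex.exp_two_pi_mul_I, mul_one]
    simp only [e]
  have h3 : ∫ θ in (0 : ℝ)..(2 * Real.pi), g θ = ∫ θ in (-Real.pi)..Real.pi, g θ := by
    have := hper.intervalIntegral_add_eq 0 (-Real.pi)
    rw [zero_add] at this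
    rw [this]
    congr 1
    ring
  have h4 : ∫ θ in (-Real.pi)..Real.pi, g θ =
      2 * ∫ φ in (-(Real.pi / 2))..(Real.pi / 2), g (2 * φ) := by
    have := intervalIntegral.integral_comp_mul_left (a := -(Real.pi / 2)) (b := Real.pi / 2) g
      (c := 2) two_ne_zero
    rw [this, show (2 : ℝ) * -(Real.pi / 2) = -Real.pi by ring,
      show (2 : ℝ) * (Real.pi / 2) = Real.pi by ring, Complex.real_smul]
    push_cast
    ring
  have h5 : ∫ φ in (-(Real.pi / 2))..(Real.pi / 2), g (2 * φ) = (-I * ((r : ℂ) ^ (2 * n))⁻¹) *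
      ∫ φ in (-(Real.pi / 2))..(Real.pi / 2),
      gg (GI (fun z => XX (I * t + (r : ℂ) * z)) n (Y0 / (r : ℂ) ^ 2)) (2 * n) 0 φ := by
    rw [← intervalIntegral.integral_const_mul]
    refine intervalIntegral.integral_congr fun φ _ => ?_
    rw [hg]
    refine gg_eq t r hr n Y0 φ ?_
    have := hne (2 * φ)
    intro h0
    apply this
    rw [← h0]
    push_cast
    ring
  rw [h2, h3, h4, h5]
  have hpi : (Real.pi : ℂ) ≠ 0 := by exact_mod_cast Real.pi_ne_zero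
  have hf : (n.factorial : ℂ) ≠ 0 := by exact_mod_cast n.factorial_ne_zero
  have hr0 : (r : ℂ) ≠ 0 := by exact_mod_cast hr.ne'
  refine mul_ne_zero (div_ne_zero hf (mul_ne_zero two_ne_zero hpi)) (mul_ne_zero two_ne_zero
    (mul_ne_zero (mul_ne_zero (neg_ne_zero.2 Complex.I_ne_zero) (inv_ne_zero (pow_ne_zero _ hr0))) h))

end Pool.Agent.TH803.LG
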