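import Pool.Agent.TH803.LG.Even

/-!
# The coefficients `LC n t` in terms of the derivatives of `Ξ`
-/

set_option autoImplicit false

namespace Pool.Agent.TH803.LG

open Complex Filter Topology
open Pool.Agent.H24R2.JP (XX)
open Pool.Agent.H24R2.JP.B1h (XX_neg XX_conj XX_diff)

theorem XX_contDiff (n : ℕ∞) : ContDiff ℂ n XX := XX_diff.contDiff

theorem EE_iter (t : ℝ) (m : ℕ) : iteratedDeriv m (EE t) 0 =
    ∑ i ∈ Finset.range (m + 1), (m.choose i : ℂ) * iteratedDeriv i XX (I * t) *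
      ((-1) ^ (m - i) * iteratedDeriv (m - i) XX (I * t)) := by
  have h1 : ContDiff ℂ m (fun y : ℂ => XX (I * t + y)) :=
    (XX_diff.comp ((differentiable_const _).add differentiable_id)).contDiff
  have h2 : ContDiff ℂ m (fun y : ℂ => XX (I * t - y)) :=
    (XX_diff.comp ((differentiable_const _).sub differentiable_id)).contDiff
  have e : EE t = (fun y : ℂ => XX (I * t + y)) * fun y : ℂ => XX (I * t - y) := rfl
  rw [e, iteratedDeriv_mul h1.contDiffAt h2.contDiffAt]
  refine Finset.sum_congr rfl fun i _ => ?_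
  rw [iteratedDeriv_comp_const_add, iteratedDeriv_comp_const_sub]
  simp

theorem LC_eq_re (n : ℕ) (t : ℝ) :
    LC n t = (iteratedDeriv (2 * n) (EE t) 0).re / ((2 * n).factorial : ℝ) := by
  unfold LC
  rw [FT_iter]
  have h1 : (n.factorial : ℝ) ≠ 0 := by exact_mod_cast n.factorial_ne_zero
  have h2 : ((2 * n).factorial : ℝ) ≠ 0 := by exact_mod_cast (2 * n).factorial_ne_zero
  have e : (n.factorial : ℂ) * (iteratedDeriv (2 * n) (EE t) 0 / ((2 * n).factorial : ℂ)) =
      (((n.factorial : ℝ) / ((2 * n).factorial : ℝ) : ℝ) : ℂ) * iteratedDeriv (2 * n) (EE t) 0 := by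
    push_cast; ring
  rw [e, Complex.re_ofReal_mul]
  field_simp

theorem LC_cont (n : ℕ) : Continuous (LC n) := by
  have e : LC n = fun t => (iteratedDeriv (2 * n) (EE t) 0).re / ((2 * n).factorial : ℝ) :=
    funext (LC_eq_re n)
  rw [e]
  refine Continuous.div_const ?_ _
  refine Complex.continuous_re.comp ?_
  simp_rw [EE_iter]
  refine continuous_finsetSum _ fun i _ => ?_
  have hc : ∀ j : ℕ, Continuous fun t : ℝ => iteratedDeriv j XX (I * t) := by
    intro j
    have h1 : Continuous (iteratedDeriv j XX) := (XX_contDiff j).continuous_iteratedDeriv j le_rfl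
    exact h1.comp (by fun_prop)
  exact (continuous_const.mul (hc _)).mul (continuous_const.mul (hc _))

theorem LC_neg (n : ℕ) (t : ℝ) : LC n (-t) = LC n t := by
  rw [LC_eq_re, LC_eq_re]
  have e : EE (-t) = EE t := by
    funext y
    unfold EE
    have h1 : XX (I * ((-t : ℝ) : ℂ) + y) = XX (I * t - y) := by
      rw [← XX_neg]; congr 1; push_cast; ring
    have h2 : XX (I * ((-t : ℝ) : ℂ) - y) = XX (I * t + y) := by
      rw [← XX_neg]; congr 1; push_cast; ring
    rw [h1, h2, mul_comm]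
  rw [e]

/-! ## The classical form -/

/-- The Riemann xi function `s (s - 1) π^(-s/2) Γ(s/2) ζ(s) / 2`. -/
noncomputable def xi (s : ℂ) : ℂ := s * (s - 1) / 2 * completedRiemannZeta₀ s + 1 / 2

/-- `Ξ(x) = ξ(1/2 + i x)` for real `x`. -/
noncomputable def Xi (x : ℝ) : ℝ := (xi (1 / 2 + I * x)).re

/-- the Laguerre expressions -/
noncomputable def Lag (n : ℕ) (x : ℝ) : ℝ :=
  ∑ j ∈ Finset.range (2 * n + 1), (-1) ^ (n + j) * ((2 * n).choose j : ℝ) / ((2 * n).factorial : ℝ) *
    iteratedDeriv j Xi x * iteratedDeriv (2 * n - j) Xi x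

theorem xi_XX (s : ℂ) : xi s = (1 / 8) * XX (s - 1 / 2) := by
  unfold xi XX
  have e : (1 / 2 + (s - 1 / 2) : ℂ) = s := by ring
  rw [e]
  ring

/-- the derivatives of `x ↦ ξ(1/2 + i x)` -/
noncomputable def Gj (j : ℕ) (x : ℝ) : ℂ := I ^ j / 8 * iteratedDeriv j XX (I * x)

theorem Gj_deriv (j : ℕ) (x : ℝ) : HasDerivAt (Gj j) (Gj (j + 1) x) x := by
  unfold Gj
  have h1 : Differentiable ℂ (iteratedDeriv j XX) :=
    (XX_contDiff (j + 1)).differentiable_iteratedDeriv j (by exact_mod_cast Nat.lt_succ_self j)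
  have h2 : HasDerivAt (iteratedDeriv j XX) (iteratedDeriv (j + 1) XX (I * x)) (I * x) := by
    rw [iteratedDeriv_succ]
    exact (h1 _).hasDerivAt
  have h3 : HasDerivAt (fun x : ℝ => I * (x : ℂ)) I x := by
    have := (Complex.ofRealCLM.hasDerivAt (x := x)).const_mul I
    simpa using this
  have h4 := (HasDerivAt.scomp x h2 h3).const_mul (I ^ j / 8)
  refine h4.congr_deriv ?_
  rw [smul_eq_mul, pow_succ]
  ring

theorem Gj_zero_im (x : ℝ) : (Gj 0 x).im = 0 := by
  unfold Gj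
  rw [pow_zero, iteratedDeriv_zero]
  have h : XX (I * x) = (starRingEnd ℂ) (XX (I * x)) := by
    rw [← XX_conj, ← XX_neg]
    congr 1
    rw [map_mul, Complex.conj_I, Complex.conj_ofReal]
    ring
  have h1 := Complex.conj_eq_iff_im.1 h.symm
  have e : (1 / 8 : ℂ) * XX (I * x) = ((1 / 8 : ℝ) : ℂ) * XX (I * x) := by push_cast; ring
  rw [e, Complex.im_ofReal_mul, h1, mul_zero]

theorem Gj_im (j : ℕ) : ∀ x : ℝ, (Gj j x).im = 0 := by
  induction j with
  | zero => exact Gj_zero_im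
  | succ j ih =>
    intro x
    have h1 : HasDerivAt (fun x : ℝ => (Gj j x).im) (Gj (j + 1) x).im x :=
      Complex.imCLM.hasFDerivAt.comp_hasDerivAt x (Gj_deriv j x)
    have h2 : (fun x : ℝ => (Gj j x).im) = fun _ => 0 := funext ih
    rw [h2] at h1
    exact h1.unique (hasDerivAt_const x 0)

theorem Xi_iter (j : ℕ) : ∀ x : ℝ, iteratedDeriv j Xi x = (Gj j x).re := by
  induction j with
  | zero =>
    intro x
    rw [iteratedDeriv_zero]
    unfold Xi Gj
    rw [xi_XX, pow_zero, iteratedDeriv_zero]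
    congr 2
    ring_nf
  | succ j ih =>
    intro x
    rw [iteratedDeriv_succ, funext ih]
    have h1 : HasDerivAt (fun x : ℝ => (Gj j x).re) (Gj (j + 1) x).re x :=
      Complex.reCLM.hasFDerivAt.comp_hasDerivAt x (Gj_deriv j x)
    exact h1.deriv

theorem XX_iter_Xi (j : ℕ) (x : ℝ) :
    iteratedDeriv j XX (I * x) = 8 * (-I) ^ j * ((iteratedDeriv j Xi x : ℝ) : ℂ) := by
  have h1 : ((iteratedDeriv j Xi x : ℝ) : ℂ) = Gj j x := by
    rw [Xi_iter]
    apply Complex.ext
    · rw [Complex.ofReal_re]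
    · rw [Complex.ofReal_im, Gj_im]
  rw [h1]
  unfold Gj
  have h2 : (-I) ^ j * I ^ j = 1 := by
    rw [← mul_pow, neg_mul, Complex.I_mul_I, neg_neg, one_pow]
  linear_combination (-(iteratedDeriv j XX (I * x))) * h2

theorem LC_eq_Lag (n : ℕ) (x : ℝ) : LC n x = 64 * Lag n x := by
  rw [LC_eq_re, EE_iter]
  have h : (∑ i ∈ Finset.range (2 * n + 1), ((2 * n).choose i : ℂ) * iteratedDeriv i XX (I * x) *
      ((-1) ^ (2 * n - i) * iteratedDeriv (2 * n - i) XX (I * x))) =
      ((64 * Lag n x * ((2 * n).factorial : ℝ) : ℝ) : ℂ) := by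
    unfold Lag
    rw [Finset.mul_sum, Finset.sum_mul]
    push_cast
    refine Finset.sum_congr rfl fun i hi => ?_
    rw [Finset.mem_range] at hi
    rw [XX_iter_Xi, XX_iter_Xi]
    have h0 : (((2 * n).factorial : ℕ) : ℂ) ≠ 0 := by exact_mod_cast (2 * n).factorial_ne_zero
    have h1 : (-I) ^ i * (-I) ^ (2 * n - i) = (-1 : ℂ) ^ n := by
      rw [← pow_add, Nat.add_sub_cancel' (by omega), pow_mul, neg_sq, Complex.I_sq]
    have h2 : (-1 : ℂ) ^ (2 * n - i) = (-1) ^ i := by
      have h3 : (-1 : ℂ) ^ (2 * n - i) * (-1) ^ i = 1 := by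
        rw [← pow_add, Nat.sub_add_cancel (by omega), pow_mul]
        norm_num
      have h4 : (-1 : ℂ) ^ i * (-1) ^ i = 1 := by
        rw [← mul_pow]; norm_num
      linear_combination (-1 : ℂ) ^ i * h3 - (-1 : ℂ) ^ (2 * n - i) * h4
    rw [h2]
    have h5 : (-1 : ℂ) ^ (n + i) = (-1) ^ n * (-1) ^ i := pow_add _ _ _
    rw [h5, ← h1]
    field_simp
    ring
  rw [h, Complex.ofReal_re]
  have h0 : (((2 * n).factorial : ℕ) : ℝ) ≠ 0 := by exact_mod_cast (2 * n).factorial_ne_zero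
  field_simp

end Pool.Agent.TH803.LG
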