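import Mathlib

/-!
# Elementary inequalities for the converse
-/

set_option autoImplicit false

namespace Pool.Agent.TH803.LG

open Filter Topology

/-- interpolation for power series with nonnegative coefficients -/
theorem three {a : ℕ → ℝ} {e : ℕ → ℕ} (ha : ∀ k, 0 ≤ a k) {y0 a1 a2 P S0 S1 S2 : ℝ} (h0 : 0 < y0)
    (h01 : y0 ≤ a1) (h12 : a1 ≤ a2) (hS0 : HasSum (fun k => a k * y0 ^ e k) S0)
    (hS1 : HasSum (fun k => a k * a1 ^ e k) S1) (hS2 : HasSum (fun k => a k * a2 ^ e k) S2) :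
    S1 ≤ (a1 / y0) ^ P * S0 + (a1 / a2) ^ P * S2 := by
  have ha1 : 0 < a1 := by linarith
  have ha2 : 0 < a2 := by linarith
  refine hasSum_le (fun k => ?_) hS1 ((hS0.mul_left ((a1 / y0) ^ P)).add (hS2.mul_left ((a1 / a2) ^ P)))
  have hA : 0 ≤ (a1 / y0) ^ P * (a k * y0 ^ e k) :=
    mul_nonneg (by positivity) (mul_nonneg (ha k) (by positivity))
  have hB : 0 ≤ (a1 / a2) ^ P * (a k * a2 ^ e k) :=
    mul_nonneg (by positivity) (mul_nonneg (ha k) (by positivity))
  rcases le_total ((e k : ℕ) : ℝ) P with h | h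
  · have h1 : (a1 / y0) ^ (e k) ≤ (a1 / y0) ^ P := by
      rw [← Real.rpow_natCast]
      exact Real.rpow_le_rpow_of_exponent_le (by rw [le_div_iff₀ h0]; linarith) h
    have h2 : a k * a1 ^ e k = (a1 / y0) ^ (e k) * (a k * y0 ^ e k) := by
      rw [div_pow]
      field_simp
    rw [h2]
    have h3 := mul_le_mul_of_nonneg_right h1 (mul_nonneg (ha k) (pow_nonneg h0.le (e k)))
    linarith
  · have h1 : (a1 / a2) ^ (e k) ≤ (a1 / a2) ^ P := by
      rw [← Real.rpow_natCast]
      exact Real.rpow_le_rpow_of_exponent_ge (by positivity) (by rw [div_le_one ha2]; exact h12) h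
    have h2 : a k * a1 ^ e k = (a1 / a2) ^ (e k) * (a k * a2 ^ e k) := by
      rw [div_pow]
      field_simp
    rw [h2]
    have h3 := mul_le_mul_of_nonneg_right h1 (mul_nonneg (ha k) (pow_nonneg ha2.le (e k)))
    linarith

/-- `log t` is smaller than any power -/
theorem ev_log (D g : ℝ) (hg : 0 < g) : ∃ T : ℝ, 2 ≤ T ∧ ∀ t : ℝ, T ≤ t → D * (Real.log t + 1) ≤ t ^ g := by
  have h1 : Tendsto (fun t : ℝ => t ^ (g / 2)) atTop atTop := tendsto_rpow_atTop (by positivity)
  obtain ⟨T, hT⟩ := (h1.eventually_ge_atTop (|D| * (2 / g + 1))).exists_forall_of_atTop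
  refine ⟨max T 2, le_max_right _ _, fun t ht => ?_⟩
  have ht1 : T ≤ t := (le_max_left _ _).trans ht
  have ht2 : 2 ≤ t := (le_max_right _ _).trans ht
  have ht0 : 0 < t := by linarith
  have hg2 : 0 < g / 2 := by positivity
  have h2 : Real.log t ≤ t ^ (g / 2) / (g / 2) := Real.log_le_rpow_div ht0.le hg2
  have h3 : 1 ≤ t ^ (g / 2) := Real.one_le_rpow (by linarith) hg2.le
  have h4 : Real.log t + 1 ≤ (2 / g + 1) * t ^ (g / 2) := by
    have e : t ^ (g / 2) / (g / 2) = 2 / g * t ^ (g / 2) := by field_simp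
    rw [e] at h2
    linarith
  have h5 : 0 ≤ Real.log t + 1 := by
    have := Real.log_nonneg (show (1 : ℝ) ≤ t by linarith)
    linarith
  calc D * (Real.log t + 1) ≤ |D| * (Real.log t + 1) := mul_le_mul_of_nonneg_right (le_abs_self _) h5
    _ ≤ |D| * ((2 / g + 1) * t ^ (g / 2)) := mul_le_mul_of_nonneg_left h4 (abs_nonneg _)
    _ = (|D| * (2 / g + 1)) * t ^ (g / 2) := by ring
    _ ≤ t ^ (g / 2) * t ^ (g / 2) := mul_le_mul_of_nonneg_right (hT t ht1) (by positivity)
    _ = t ^ g := by rw [← Real.rpow_add ht0]; congr 1; ring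

end Pool.Agent.TH803.LG
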