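import Pool.Agent.TH803.LG.Coef
import Pool.Agent.TH803.LG.ConvA
import Pool.Agent.H986R2.K4.Spec
import Pool.Agent.H24R2.JP.Zeta

/-!
# The converse: nonnegativity of the coefficients beyond height `exp (4 n)`
-/

set_option autoImplicit false

namespace Pool.Agent.TH803.LG

open Complex Filter Topology Metric
open Pool.Agent.H24R2.JP (XX HH Om)
open Pool.Agent.H986R2.K4 (ZB S_HH S_PL S_VDC S_V0)

/-- Cauchy's inequality for the coefficients -/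
theorem lc_cauchy {t x0 B : ℝ} (hx0 : 0 < x0) (hB : ∀ u : ℂ, ‖u‖ = x0 → ‖XX (I * t + u)‖ ≤ B) (k : ℕ) :
    |LC k t| ≤ B ^ 2 / x0 ^ (2 * k) := by
  have h1 := Complex.norm_iteratedDeriv_le_of_forall_mem_sphere_norm_le (c := 0) (f := EE t)
    (C := B ^ 2) (2 * k) hx0 (EE_diff t).diffContOnCl (fun z hz => by
      rw [mem_sphere_zero_iff_norm] at hz
      unfold EE
      rw [norm_mul, sq]
      have a1 := hB z hz
      have a2 := hB (-z) (by rw [norm_neg]; exact hz)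
      rw [← sub_eq_add_neg] at a2
      exact mul_le_mul a1 a2 (norm_nonneg _) ((norm_nonneg _).trans a1))
  have hf : (0 : ℝ) < (2 * k).factorial := by exact_mod_cast (2 * k).factorial_pos
  rw [LC_eq_re, abs_div, Nat.abs_cast, div_le_iff₀ hf]
  calc |(iteratedDeriv (2 * k) (EE t) 0).re| ≤ ‖iteratedDeriv (2 * k) (EE t) 0‖ :=
        Complex.abs_re_le_norm _
    _ ≤ _ := h1
    _ = _ := by ring

/-- the low part -/
theorem low_bound {t x0 B y P : ℝ} (m : ℕ) (hx0 : 0 < x0) (hxy : x0 ≤ y)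
    (hB : ∀ k, |LC k t| ≤ B ^ 2 / x0 ^ (2 * k)) (hm : ∀ k : ℕ, k < m → 2 * (k : ℝ) ≤ P) :
    |∑ k ∈ Finset.range m, LC k t * y ^ (2 * k)| ≤ m * (B ^ 2 * (y / x0) ^ P) := by
  refine (Finset.abs_sum_le_sum_abs _ _).trans ?_
  have : ∀ k ∈ Finset.range m, |LC k t * y ^ (2 * k)| ≤ B ^ 2 * (y / x0) ^ P := by
    intro k hk
    rw [Finset.mem_range] at hk
    have hy : 0 < y := by linarith
    rw [abs_mul, abs_of_nonneg (pow_nonneg hy.le (2 * k))]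
    have h1 : (y / x0) ^ (2 * k) ≤ (y / x0) ^ P := by
      rw [← Real.rpow_natCast]
      refine Real.rpow_le_rpow_of_exponent_le (by rw [le_div_iff₀ hx0]; linarith) ?_
      push_cast
      exact hm k hk
    calc |LC k t| * y ^ (2 * k) ≤ (B ^ 2 / x0 ^ (2 * k)) * y ^ (2 * k) :=
          mul_le_mul_of_nonneg_right (hB k) (by positivity)
      _ = B ^ 2 * (y / x0) ^ (2 * k) := by rw [div_pow]; ring
      _ ≤ _ := mul_le_mul_of_nonneg_left h1 (sq_nonneg _)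
  calc ∑ k ∈ Finset.range m, |LC k t * y ^ (2 * k)| ≤ ∑ _k ∈ Finset.range m, B ^ 2 * (y / x0) ^ P :=
        Finset.sum_le_sum this
    _ = _ := by rw [Finset.sum_const, Finset.card_range, nsmul_eq_mul]

/-- powers of a ratio as powers of `t` -/
theorem ratio_pow {t a b μ : ℝ} (ht : 1 ≤ t) (ha : 0 < a) (hb : 0 < b) (hμ : 0 ≤ μ) :
    (a / b) ^ (μ * Real.log t) ≤ t ^ (μ * ((a - b) / b)) := by
  have ht0 : 0 < t := by linarith
  have hab : 0 < a / b := div_pos ha hb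
  have hl : 0 ≤ Real.log t := Real.log_nonneg ht
  rw [Real.rpow_def_of_pos hab, Real.rpow_def_of_pos ht0]
  apply Real.exp_le_exp.2
  have h1 : Real.log (a / b) ≤ a / b - 1 := Real.log_le_sub_one_of_pos hab
  have h2 : a / b - 1 = (a - b) / b := by field_simp
  rw [h2] at h1
  have h3 : 0 ≤ μ * Real.log t := mul_nonneg hμ hl
  calc Real.log (a / b) * (μ * Real.log t) ≤ ((a - b) / b) * (μ * Real.log t) :=
        mul_le_mul_of_nonneg_right h1 h3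
    _ = _ := by ring

theorem num1 {h : ℝ} (h0 : 0 < h) (h1 : h ≤ 1 / 32) :
    (1 / 2 + 2 * h) * (1 + h / 2) * (h + h ^ 2 / 10) ≤ (h + 7 * h ^ 2) * (1 / 2 - h ^ 2 / 10) := by
  have e : (h + 7 * h ^ 2) * (1 / 2 - h ^ 2 / 10) - (1 / 2 + 2 * h) * (1 + h / 2) * (h + h ^ 2 / 10) =
      h ^ 2 * (6 / 5 - 53 / 40 * h - 4 / 5 * h ^ 2) := by ring
  have h2 : 0 ≤ 6 / 5 - 53 / 40 * h - 4 / 5 * h ^ 2 := by nlinarith
  have h3 : 0 ≤ h ^ 2 * (6 / 5 - 53 / 40 * h - 4 / 5 * h ^ 2) := mul_nonneg (sq_nonneg h) h2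
  linarith

theorem conv (h1 : S_HH) (h2 : S_PL) (h3 : S_VDC) (h4 : S_V0) (h5 : ZB (1 / 2)) (κ : ℝ) (hκ : 4 < κ)
    (H : ∃ N : ℕ, ∀ n : ℕ, N ≤ n → ∀ x : ℝ, |x| ≤ Real.exp (κ * n) → 0 ≤ LC n x) :
    ∃ y : ℝ, y < 1 / 2 ∧ ∀ s : ℂ, 1 / 2 + y < s.re → riemannZeta s ≠ 0 := by
  by_contra hcon
  push Not at hcon
  have hzero := h4 (fun y hy => hcon y hy)
  obtain ⟨N, HN⟩ := H
  -- parameters
  obtain ⟨r, hr⟩ : ∃ r : ℝ, r = 2 / κ := ⟨_, rfl⟩
  have hκ0 : 0 < κ := by linarith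
  have hr0 : 0 < r := by rw [hr]; positivity
  have hr1 : r < 1 / 2 := by rw [hr, div_lt_iff₀ hκ0]; linarith
  obtain ⟨c, hc⟩ : ∃ c : ℝ, c = 1 - 2 * r := ⟨_, rfl⟩
  have hc0 : 0 < c := by rw [hc]; linarith
  have hc1 : c < 1 := by rw [hc]; linarith
  obtain ⟨e0, he0, he01, hv⟩ := h3 (c / 16) (by positivity)
  obtain ⟨e, he⟩ : ∃ e : ℝ, e = min e0 (c / 8) := ⟨_, rfl⟩
  have he1 : 0 < e := by rw [he]; exact lt_min he0 (by positivity)
  have he2 : e ≤ c / 8 := by rw [he]; exact min_le_right _ _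
  have he3 : e ≤ 1 / 8 := by linarith
  obtain ⟨Cv, hCv, hv⟩ := hv e he1 (by rw [he]; exact min_le_left _ _)
  obtain ⟨x0, hx0⟩ : ∃ x0 : ℝ, x0 = 1 / 2 - e := ⟨_, rfl⟩
  have hx00 : 3 / 8 ≤ x0 := by rw [hx0]; linarith
  have hx0p : 0 < x0 := by linarith
  obtain ⟨ν, hν⟩ : ∃ ν : ℝ, ν = c / 16 * e := ⟨_, rfl⟩
  have hν0 : 0 < ν := by rw [hν]; positivity
  have hν1 : ν ≤ 1 := by rw [hν]; nlinarith only [hc0, hc1, he1, he3, mul_pos hc0 he1]
  obtain ⟨C', T0, hC', hT0, hPL⟩ := h2 x0 ν Cv 2 1 hx0p (by linarith) hν0.le hν1 hCv (by norm_num) le_rfl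
    (by
      intro t ht
      have e1 : (1 / 2 + (x0 : ℂ) + t * I) = 1 - e + t * I := by rw [hx0]; push_cast; ring
      rw [e1, hν]
      exact hv t ht)
  obtain ⟨K, hK1, hHH⟩ := h1
  obtain ⟨T1, hT1, hHR⟩ := hHH 1 le_rfl
  obtain ⟨h, hh⟩ : ∃ h : ℝ, h = c * e / 4 := ⟨_, rfl⟩
  have hh0 : 0 < h := by rw [hh]; positivity
  have hce' : c * e ≤ e := mul_le_of_le_one_left he1.le hc1.le
  have hce : c * e ≤ 1 / 8 := hce'.trans he3
  have hcep : 0 < c * e := mul_pos hc0 he1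
  have hh1 : h ≤ 1 / 32 := by rw [hh]; linarith
  have hhe : h ≤ e := by rw [hh]; linarith only [hce', he1, hcep]
  obtain ⟨ε, hε⟩ : ∃ ε : ℝ, ε = h ^ 2 / 10 := ⟨_, rfl⟩
  have hε0 : 0 < ε := by rw [hε]; positivity
  have hεh : ε ≤ h := by rw [hε]; nlinarith only [hh0, hh1]
  obtain ⟨t1, ht1, hz⟩ := h5 ε hε0
  obtain ⟨T2, hT2, hlog⟩ := ev_log (Real.exp (2 * K) * (3 * C' ^ 2 + Real.exp (2 * K)) + 1) ε hε0
  obtain ⟨Tb, hTb⟩ : ∃ Tb : ℝ, Tb = max (max (max T0 T1) (max T2 t1)) (Real.exp (κ * (N + 1))) := ⟨_, rfl⟩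
  obtain ⟨s, hs0, hs1, hs2, hs3⟩ := hzero ε Tb hε0
  obtain ⟨t, ht⟩ : ∃ t : ℝ, t = s.im := ⟨_, rfl⟩
  rw [← ht, hTb] at hs3
  have hA := (le_max_left _ _).trans hs3
  have htN : Real.exp (κ * (N + 1)) ≤ t := (le_max_right _ _).trans hs3
  have hA1 := (le_max_left _ _).trans hA
  have hA2 := (le_max_right _ _).trans hA
  have htT0 : T0 ≤ t := (le_max_left _ _).trans hA1
  have htT1 : T1 ≤ t := (le_max_right _ _).trans hA1
  have htT2 : T2 ≤ t := (le_max_left _ _).trans hA2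
  have htt1 : t1 ≤ t := (le_max_right _ _).trans hA2
  have ht0 : 0 < t := by linarith
  have ht1' : 1 ≤ t := by linarith
  obtain ⟨L, hL⟩ : ∃ L : ℝ, L = Real.log t := ⟨_, rfl⟩
  have hLN : κ * (N + 1) ≤ L := by rw [hL]; exact (Real.le_log_iff_exp_le ht0).2 htN
  have hN0 : (0 : ℝ) ≤ N := Nat.cast_nonneg N
  have hLpos : 0 < L := lt_of_lt_of_le (by positivity) hLN
  have hOm : Om t = L / 2 := by rw [hL]; rfl
  obtain ⟨y0, hy0⟩ : ∃ y0 : ℝ, y0 = s.re - 1 / 2 := ⟨_, rfl⟩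
  have hy01 : 1 / 2 - ε < y0 := by rw [hy0]; linarith
  have hy02 : y0 < 1 / 2 := by rw [hy0]; linarith
  have hy0x : x0 ≤ y0 := by rw [hx0]; linarith
  have hy0p : 0 < y0 := by linarith
  obtain ⟨a1, ha1⟩ : ∃ a1 : ℝ, a1 = 1 / 2 + h := ⟨_, rfl⟩
  obtain ⟨a2, ha2⟩ : ∃ a2 : ℝ, a2 = 1 / 2 + 2 * h := ⟨_, rfl⟩
  have ha1p : 0 < a1 := by linarith
  have ha2p : 0 < a2 := by linarith
  -- the zero
  have hX0 : XX (I * t + y0) = 0 := by
    have e1 : (1 / 2 + (I * t + y0) : ℂ) = s := by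
      apply Complex.ext
      · simp [hy0]
      · simp [ht]
    rw [Pool.Agent.H24R2.JP.ZetaTask.part1 _ (by simp; exact ht0), e1, hs0, mul_zero]
  -- sizes
  obtain ⟨W, hW⟩ : ∃ W : ℝ, W = ‖HH (I * t)‖ := ⟨_, rfl⟩
  have hW0 : 0 < W := by
    rw [hW]
    have := (hHR t 0 htT1 (by rw [norm_zero]; norm_num)).2.1
    rw [add_zero] at this
    exact norm_pos_iff.2 this
  have hsz : ∀ a : ℝ, 1 / 2 + h ≤ a → a ≤ 1 → ‖XX (I * t + a)‖ = ‖HH (I * t + a)‖ *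
      ‖riemannZeta (1 / 2 + (I * t + a))‖ ∧ Real.exp (Om t * a - K) * W ≤ ‖HH (I * t + a)‖ ∧
      ‖HH (I * t + a)‖ ≤ Real.exp (Om t * a + K) * W ∧ t ^ (-ε) ≤ ‖riemannZeta (1 / 2 + (I * t + a))‖ ∧
      ‖riemannZeta (1 / 2 + (I * t + a))‖ ≤ t ^ ε := by
    intro a ha hb
    have hna : ‖(a : ℂ)‖ ≤ 1 := by
      rw [Complex.norm_real, Real.norm_eq_abs, abs_of_pos (by linarith)]; exact hb
    obtain ⟨-, -, -, g4, g5⟩ := hHR t a htT1 hna
    rw [Complex.ofReal_re, mul_one, ← hW] at g4 g5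
    have e1 : (1 / 2 + (I * t + a) : ℂ).re = 1 / 2 + a := by simp
    have e2 : (1 / 2 + (I * t + a) : ℂ).im = t := by simp
    obtain ⟨-, -, z3, z4⟩ := hz (1 / 2 + (I * t + a)) (by rw [e1]; linarith) (by rw [e2]; exact htt1)
    rw [e2] at z3 z4
    refine ⟨?_, g4, g5, z3, z4⟩
    rw [Pool.Agent.H24R2.JP.ZetaTask.part1 _ (by simp; exact ht0), norm_mul]
  have hexp : ∀ a b : ℝ, Real.exp (Om t * a + b) ^ 2 = t ^ a * Real.exp (2 * b) := by
    intro a b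
    rw [Real.rpow_def_of_pos ht0, ← Real.exp_add, ← Real.exp_nat_mul, ← hL, hOm]
    congr 1
    push_cast
    ring
  have hS1 : Real.exp (-(2 * K)) * t ^ (a1 - 2 * ε) * W ^ 2 ≤ ‖XX (I * t + a1)‖ ^ 2 := by
    obtain ⟨g1, g2, -, g4, -⟩ := hsz a1 (by rw [ha1]) (by rw [ha1]; linarith)
    rw [g1]
    have h6 : Real.exp (Om t * a1 - K) * W * t ^ (-ε) ≤ ‖HH (I * t + a1)‖ *
        ‖riemannZeta (1 / 2 + (I * t + a1))‖ :=
      mul_le_mul g2 g4 (by positivity) (norm_nonneg _)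
    refine le_trans (le_of_eq ?_) (pow_le_pow_left₀ (by positivity) h6 2)
    rw [mul_pow, mul_pow, sub_eq_add_neg (Om t * a1) K, hexp, ← Real.rpow_natCast (t ^ (-ε)) 2,
      ← Real.rpow_mul ht0.le]
    have e3 : t ^ (a1 - 2 * ε) = t ^ a1 * t ^ (-ε * ((2 : ℕ) : ℝ)) := by
      rw [← Real.rpow_add ht0]; congr 1; push_cast; ring
    rw [e3, show 2 * -K = -(2 * K) by ring]
    ring
  have hS2 : ‖XX (I * t + a2)‖ ^ 2 ≤ Real.exp (2 * K) * t ^ (a2 + 2 * ε) * W ^ 2 := by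
    obtain ⟨g1, -, g3, -, g5⟩ := hsz a2 (by rw [ha2]; linarith) (by rw [ha2]; linarith)
    rw [g1]
    have h6 : ‖HH (I * t + a2)‖ * ‖riemannZeta (1 / 2 + (I * t + a2))‖ ≤
        Real.exp (Om t * a2 + K) * W * t ^ ε :=
      mul_le_mul g3 g5 (norm_nonneg _) (by positivity)
    refine (pow_le_pow_left₀ (by positivity) h6 2).trans (le_of_eq ?_)
    rw [mul_pow, mul_pow, hexp, ← Real.rpow_natCast (t ^ ε) 2, ← Real.rpow_mul ht0.le]
    have e3 : t ^ (a2 + 2 * ε) = t ^ a2 * t ^ (ε * ((2 : ℕ) : ℝ)) := by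
      rw [← Real.rpow_add ht0]; congr 1; push_cast; ring
    rw [e3]
    ring
  -- coefficients
  obtain ⟨B, hB⟩ : ∃ B : ℝ, B = C' * t ^ ν * (Real.exp (x0 * Om t) * W) := ⟨_, rfl⟩
  have hLC : ∀ k, |LC k t| ≤ B ^ 2 / x0 ^ (2 * k) := by
    refine lc_cauchy hx0p (fun u hu => ?_)
    rw [hB, hW]
    refine hPL t u htT0 ((Complex.abs_re_le_norm u).trans hu.le) ?_
    have := (Complex.abs_im_le_norm u).trans hu.le
    linarith
  have hB2 : B ^ 2 = C' ^ 2 * t ^ (2 * ν + x0) * W ^ 2 := by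
    rw [hB, mul_pow, mul_pow, mul_pow]
    have e1 : Real.exp (x0 * Om t) ^ 2 = t ^ x0 := by
      have := hexp x0 0
      rw [add_zero, mul_zero, Real.exp_zero, mul_one] at this
      rw [mul_comm x0]
      exact this
    rw [e1, ← Real.rpow_natCast (t ^ ν) 2, ← Real.rpow_mul ht0.le, Real.rpow_add ht0]
    have e2 : ν * ((2 : ℕ) : ℝ) = 2 * ν := by push_cast; ring
    rw [e2]
    ring
  obtain ⟨m, hm⟩ : ∃ m : ℕ, m = ⌈L / κ⌉₊ := ⟨_, rfl⟩
  have hm1 : L / κ ≤ m := by rw [hm]; exact Nat.le_ceil _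
  have hm2 : (m : ℝ) < L / κ + 1 := by rw [hm]; exact Nat.ceil_lt_add_one (by positivity)
  have hmL : (m : ℝ) ≤ L + 1 := by
    have : L / κ ≤ L := div_le_self hLpos.le (by linarith)
    linarith
  have hmk : ∀ k : ℕ, k < m → 2 * (k : ℝ) ≤ r * L := by
    intro k hk
    have h6 : (k : ℝ) + 1 ≤ m := by exact_mod_cast hk
    have h7 : r * L = 2 * (L / κ) := by rw [hr]; ring
    rw [h7]
    linarith
  have hmN : N ≤ m := by
    have h6 : (N : ℝ) + 1 ≤ L / κ := by rw [le_div_iff₀ hκ0]; linarith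
    have h7 : (N : ℝ) ≤ m := by linarith
    exact_mod_cast h7
  have hnonneg : ∀ k : ℕ, 0 ≤ LC (k + m) t := by
    intro k
    refine HN (k + m) (by omega) t ?_
    rw [abs_of_pos ht0, ← Real.log_le_iff_le_exp ht0, ← hL]
    have h6 : L / κ ≤ ((k + m : ℕ) : ℝ) := by
      push_cast
      have : (0 : ℝ) ≤ k := Nat.cast_nonneg k
      linarith
    rw [div_le_iff₀ hκ0] at h6
    linarith
  -- the low part
  have hlow : ∀ y : ℝ, x0 ≤ y → |∑ k ∈ Finset.range m, LC k t * y ^ (2 * k)| ≤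
      (L + 1) * (C' ^ 2 * t ^ (2 * ν + x0 + r * ((y - x0) / x0)) * W ^ 2) := by
    intro y hy
    refine (low_bound m hx0p hy hLC hmk).trans ?_
    have h6 := ratio_pow ht1' (show 0 < y by linarith) hx0p hr0.le
    rw [← hL] at h6
    have h7 : B ^ 2 * (y / x0) ^ (r * L) ≤ C' ^ 2 * t ^ (2 * ν + x0 + r * ((y - x0) / x0)) * W ^ 2 := by
      rw [hB2, Real.rpow_add ht0 (2 * ν + x0)]
      calc C' ^ 2 * t ^ (2 * ν + x0) * W ^ 2 * (y / x0) ^ (r * L) ≤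
            C' ^ 2 * t ^ (2 * ν + x0) * W ^ 2 * t ^ (r * ((y - x0) / x0)) :=
            mul_le_mul_of_nonneg_left h6 (by positivity)
        _ = _ := by ring
    refine mul_le_mul hmL h7 (mul_nonneg (sq_nonneg _) (Real.rpow_nonneg (div_nonneg (by linarith only [hy, hx0p]) hx0p.le) _)) (by linarith only [hLpos])
  -- the series
  have hQ : ∀ y : ℝ, HasSum (fun k : ℕ => LC (k + m) t * y ^ (2 * (k + m)))
      (‖XX (I * t + y)‖ ^ 2 - ∑ k ∈ Finset.range m, LC k t * y ^ (2 * k)) :=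
    fun y => (hasSum_nat_add_iff' m).2 (hasSum_EE t y)
  obtain ⟨μ, hμ⟩ : ∃ μ : ℝ, μ = a2 * (1 + 5 * ε / h) := ⟨_, rfl⟩
  have hμ1 : μ = a2 * (1 + h / 2) := by
    rw [hμ, hε]
    field_simp
    ring
  have hμ0 : 0 ≤ μ := by rw [hμ1]; positivity
  have key := three (P := μ * L) hnonneg hy0p (by rw [ha1]; linarith) (by rw [ha1, ha2]; linarith)
    (hQ y0) (hQ a1) (hQ a2)
  rw [hX0, norm_zero] at key
  have r1 := ratio_pow ht1' ha1p hy0p hμ0
  have r2 := ratio_pow ht1' ha1p ha2p hμ0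
  rw [← hL] at r1 r2
  have l0 := (abs_le.1 (hlow y0 hy0x)).1
  have l1 := (abs_le.1 (hlow a1 (by rw [ha1, hx0]; linarith))).2
  have l2 := (abs_le.1 (hlow a2 (by rw [ha2, hx0]; linarith))).1
  -- exponents
  have hgam : 3 * c / 4 * x0 ≤ x0 - r := by
    have : r = (1 - c) / 2 := by rw [hc]; ring
    rw [this, hx0]
    nlinarith only [he2, hcep]
  have hEx : ∀ y : ℝ, x0 ≤ y → 2 * ν + x0 + r * ((y - x0) / x0) ≤ 2 * ν + y - 3 * c / 4 * (y - x0) := by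
    intro y hy
    have h6 : r * ((y - x0) / x0) ≤ (1 - 3 * c / 4) * (y - x0) := by
      have h7 : r ≤ (1 - 3 * c / 4) * x0 := by linarith
      calc r * ((y - x0) / x0) ≤ ((1 - 3 * c / 4) * x0) * ((y - x0) / x0) :=
            mul_le_mul_of_nonneg_right h7 (div_nonneg (by linarith) hx0p.le)
        _ = _ := by field_simp
    linarith
  have hν2 : 2 * ν = c * e / 8 := by rw [hν]; ring
  have hh2 : h ^ 2 ≤ c * e / 32 := by
    have h6 := mul_le_mul_of_nonneg_left hce hcep.le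
    rw [hh]
    nlinarith only [h6, hcep]
  have E1 : 2 * ν + x0 + r * ((a1 - x0) / x0) ≤ a1 - 3 * ε := by
    have h6 := hEx a1 (by rw [ha1, hx0]; linarith)
    have h7 : e ≤ a1 - x0 := by rw [ha1, hx0]; linarith
    have h8 : 3 * c / 4 * e ≤ 3 * c / 4 * (a1 - x0) := mul_le_mul_of_nonneg_left h7 (by positivity)
    rw [hε]
    linarith only [h6, h8, hν2, hh2, hcep]
  have E2 : 2 * ν + x0 + r * ((a2 - x0) / x0) ≤ a2 := by
    have h6 := hEx a2 (by rw [ha2, hx0]; linarith)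
    have h7 : e ≤ a2 - x0 := by rw [ha2, hx0]; linarith
    have h8 : 3 * c / 4 * e ≤ 3 * c / 4 * (a2 - x0) := mul_le_mul_of_nonneg_left h7 (by positivity)
    linarith only [h6, h8, hν2, hh2, hcep]
  have E0 : 2 * ν + x0 + r * ((y0 - x0) / x0) ≤ 1 / 2 - 5 / 8 * (c * e) := by
    have h6 := hEx (1 / 2) (by rw [hx0]; linarith)
    have h7 : r * ((y0 - x0) / x0) ≤ r * ((1 / 2 - x0) / x0) := by
      refine mul_le_mul_of_nonneg_left ?_ hr0.le
      exact div_le_div_of_nonneg_right (by linarith) hx0p.le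
    have h8 : (1 : ℝ) / 2 - x0 = e := by rw [hx0]; ring
    rw [h8] at h6 h7
    linarith
  have E3 : μ * ((a1 - y0) / y0) ≤ h + 7 * h ^ 2 := by
    rw [← mul_div_assoc, div_le_iff₀ hy0p]
    have h6 : a1 - y0 ≤ h + ε := by rw [ha1]; linarith
    have h7 : (h + 7 * h ^ 2) * (1 / 2 - ε) ≤ (h + 7 * h ^ 2) * y0 :=
      mul_le_mul_of_nonneg_left hy01.le (by positivity)
    have h8 : μ * (a1 - y0) ≤ μ * (h + ε) := mul_le_mul_of_nonneg_left h6 hμ0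
    have h9 : μ * (h + ε) ≤ (h + 7 * h ^ 2) * (1 / 2 - ε) := by
      rw [hμ1, ha2, hε]
      exact num1 hh0 hh1
    exact h8.trans (h9.trans h7)
  have E4 : μ * ((a1 - a2) / a2) = -(h + 5 * ε) := by
    have h6 : a1 - a2 = -h := by rw [ha1, ha2]; ring
    rw [h6, hμ]
    field_simp
  obtain ⟨G, hG⟩ : ∃ G : ℝ, G = t ^ (a1 - 3 * ε) := ⟨_, rfl⟩
  have hG0 : 0 < G := by rw [hG]; positivity
  have pw : ∀ a : ℝ, a ≤ a1 - 3 * ε → t ^ a ≤ G := by
    intro a ha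
    rw [hG]
    exact Real.rpow_le_rpow_of_exponent_le ht1' ha
  obtain ⟨D, hD⟩ : ∃ D : ℝ, D = (L + 1) * C' ^ 2 := ⟨_, rfl⟩
  have hD0 : 0 ≤ D := by rw [hD]; positivity
  have hW2 : 0 < W ^ 2 := by positivity
  -- term 1
  have b1 : (L + 1) * (C' ^ 2 * t ^ (2 * ν + x0 + r * ((a1 - x0) / x0)) * W ^ 2) ≤ D * G * W ^ 2 := by
    have := pw _ E1
    calc _ = D * t ^ (2 * ν + x0 + r * ((a1 - x0) / x0)) * W ^ 2 := by rw [hD]; ring
      _ ≤ _ := by gcongr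
  -- term 2
  have b2 : (a1 / y0) ^ (μ * L) * (0 ^ 2 - ∑ k ∈ Finset.range m, LC k t * y0 ^ (2 * k)) ≤
      D * G * W ^ 2 := by
    have h6 : 0 ^ 2 - ∑ k ∈ Finset.range m, LC k t * y0 ^ (2 * k) ≤
        D * t ^ (2 * ν + x0 + r * ((y0 - x0) / x0)) * W ^ 2 := by
      rw [hD]
      linarith
    have h7 : t ^ (μ * ((a1 - y0) / y0)) * t ^ (2 * ν + x0 + r * ((y0 - x0) / x0)) ≤ G := by
      rw [← Real.rpow_add ht0]
      apply pw
      linarith only [E3, E0, ha1, hε, hh2, hcep]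
    calc _ ≤ t ^ (μ * ((a1 - y0) / y0)) * (D * t ^ (2 * ν + x0 + r * ((y0 - x0) / x0)) * W ^ 2) := by
          refine (mul_le_mul_of_nonneg_left h6 (by positivity)).trans ?_
          exact mul_le_mul_of_nonneg_right r1 (by positivity)
      _ = D * (t ^ (μ * ((a1 - y0) / y0)) * t ^ (2 * ν + x0 + r * ((y0 - x0) / x0))) * W ^ 2 := by ring
      _ ≤ _ := by gcongr
  -- term 3
  have b3 : (a1 / a2) ^ (μ * L) * (‖XX (I * t + a2)‖ ^ 2 - ∑ k ∈ Finset.range m, LC k t * a2 ^ (2 * k)) ≤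
      (Real.exp (2 * K) + D) * G * W ^ 2 := by
    have h6 : ‖XX (I * t + a2)‖ ^ 2 - ∑ k ∈ Finset.range m, LC k t * a2 ^ (2 * k) ≤
        Real.exp (2 * K) * t ^ (a2 + 2 * ε) * W ^ 2 +
        D * t ^ (2 * ν + x0 + r * ((a2 - x0) / x0)) * W ^ 2 := by
      have : D * t ^ (2 * ν + x0 + r * ((a2 - x0) / x0)) * W ^ 2 =
        (L + 1) * (C' ^ 2 * t ^ (2 * ν + x0 + r * ((a2 - x0) / x0)) * W ^ 2) := by rw [hD]; ring
      rw [this]
      linarith
    have h7 : t ^ (μ * ((a1 - a2) / a2)) * t ^ (a2 + 2 * ε) ≤ G := by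
      rw [← Real.rpow_add ht0]
      apply pw
      rw [E4, ha1, ha2]
      linarith
    have h8 : t ^ (μ * ((a1 - a2) / a2)) * t ^ (2 * ν + x0 + r * ((a2 - x0) / x0)) ≤ G := by
      rw [← Real.rpow_add ht0]
      apply pw
      rw [E4]
      have : a2 = a1 + h := by rw [ha1, ha2]; ring
      linarith
    calc _ ≤ t ^ (μ * ((a1 - a2) / a2)) * (Real.exp (2 * K) * t ^ (a2 + 2 * ε) * W ^ 2 +
        D * t ^ (2 * ν + x0 + r * ((a2 - x0) / x0)) * W ^ 2) := by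
          refine (mul_le_mul_of_nonneg_left h6 (by positivity)).trans ?_
          exact mul_le_mul_of_nonneg_right r2 (by positivity)
      _ = Real.exp (2 * K) * (t ^ (μ * ((a1 - a2) / a2)) * t ^ (a2 + 2 * ε)) * W ^ 2 +
          D * (t ^ (μ * ((a1 - a2) / a2)) * t ^ (2 * ν + x0 + r * ((a2 - x0) / x0))) * W ^ 2 := by ring
      _ ≤ Real.exp (2 * K) * G * W ^ 2 + D * G * W ^ 2 := by gcongr
      _ = _ := by ring
  -- conclusion
  have hfin : Real.exp (-(2 * K)) * t ^ (a1 - 2 * ε) * W ^ 2 ≤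
      (3 * D + Real.exp (2 * K)) * G * W ^ 2 := by
    have h6 : (3 * D + Real.exp (2 * K)) * G * W ^ 2 = D * G * W ^ 2 + D * G * W ^ 2 +
      (Real.exp (2 * K) + D) * G * W ^ 2 := by ring
    rw [h6]
    linarith
  have hfin2 : Real.exp (-(2 * K)) * t ^ (a1 - 2 * ε) ≤ (3 * D + Real.exp (2 * K)) * G :=
    le_of_mul_le_mul_right hfin hW2
  have e5 : t ^ (a1 - 2 * ε) = t ^ ε * G := by
    rw [hG, ← Real.rpow_add ht0]; congr 1; ring
  rw [e5] at hfin2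
  have hfin3 : Real.exp (-(2 * K)) * t ^ ε ≤ 3 * D + Real.exp (2 * K) := by
    refine le_of_mul_le_mul_right ?_ hG0
    calc Real.exp (-(2 * K)) * t ^ ε * G = Real.exp (-(2 * K)) * (t ^ ε * G) := by ring
      _ ≤ _ := hfin2
  have hfin4 : t ^ ε ≤ Real.exp (2 * K) * (3 * D + Real.exp (2 * K)) := by
    calc t ^ ε = Real.exp (2 * K) * (Real.exp (-(2 * K)) * t ^ ε) := by
          rw [← mul_assoc, ← Real.exp_add]; simp
      _ ≤ _ := mul_le_mul_of_nonneg_left hfin3 (Real.exp_pos _).le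
  have hlog2 := hlog t htT2
  rw [← hL] at hlog2
  have hE : 0 < Real.exp (2 * K) := Real.exp_pos _
  have h9 : Real.exp (2 * K) * (3 * D + Real.exp (2 * K)) ≤
      Real.exp (2 * K) * (3 * C' ^ 2 + Real.exp (2 * K)) * (L + 1) := by
    rw [hD]
    have h11 : 0 ≤ Real.exp (2 * K) * Real.exp (2 * K) * L := by positivity
    have h12 : Real.exp (2 * K) * (3 * C' ^ 2 + Real.exp (2 * K)) * (L + 1) =
      Real.exp (2 * K) * (3 * ((L + 1) * C' ^ 2) + Real.exp (2 * K)) +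
        Real.exp (2 * K) * Real.exp (2 * K) * L := by ring
    linarith only [h11, h12]
  have h10 : (Real.exp (2 * K) * (3 * C' ^ 2 + Real.exp (2 * K)) + 1) * (L + 1) =
      Real.exp (2 * K) * (3 * C' ^ 2 + Real.exp (2 * K)) * (L + 1) + (L + 1) := by ring
  rw [h10] at hlog2
  linarith only [hlog2, h9, hfin4, hLpos]

end Pool.Agent.TH803.LG
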