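import Pool.Agent.H24R2.JP.B1

/-!
# Even entire functions; the function `|XX(it + y)|²` in the variable `y²`
-/

set_option autoImplicit false

namespace Pool.Agent.TH803.LG

open Complex Filter Topology
open Pool.Agent.H24R2.JP (XX)
open Pool.Agent.H24R2.JP.B1h (hcongr iter_conj XX_neg XX_conj XX_diff)

/-- the function `g` with `g (z ^ 2) = h z` for even `h` -/
noncomputable def sqf (h : ℂ → ℂ) (x : ℂ) : ℂ :=
  ∑' k : ℕ, iteratedDeriv (2 * k) h 0 / ((2 * k).factorial : ℂ) * x ^ k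

theorem odd_zero' {h : ℂ → ℂ} (he : ∀ z, h (-z) = h z) (k : ℕ) :
    iteratedDeriv (2 * k + 1) h 0 = 0 := by
  have h1 := iteratedDeriv_comp_neg (2 * k + 1) h 0
  have e : (fun x => h (-x)) = h := by
    funext x
    exact he x
  rw [e, neg_zero, pow_succ, pow_mul] at h1
  simp at h1
  linear_combination (1 / 2 : ℂ) * h1

theorem hasSum_sq {h : ℂ → ℂ} (hd : Differentiable ℂ h) (he : ∀ z, h (-z) = h z) (z : ℂ) :
    HasSum (fun k : ℕ => iteratedDeriv (2 * k) h 0 / ((2 * k).factorial : ℂ) * (z ^ 2) ^ k) (h z) := by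
  have h1 := hasSum_taylorSeries_of_entire hd 0 z
  have hinj : Function.Injective (fun k : ℕ => 2 * k) := fun a b hab => by
    have : 2 * a = 2 * b := hab
    omega
  rw [← hinj.hasSum_iff] at h1
  · refine hcongr h1 fun k => ?_
    show _ = (((2 * k).factorial : ℂ))⁻¹ • (z - 0) ^ (2 * k) • iteratedDeriv (2 * k) h 0
    rw [smul_eq_mul, smul_eq_mul, sub_zero, pow_mul]
    field_simp
  · intro x hx
    have hodd : ∃ k, x = 2 * k + 1 := by
      rcases Nat.even_or_odd' x with ⟨k, hk | hk⟩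
      · exact absurd ⟨k, hk.symm⟩ hx
      · exact ⟨k, hk⟩
    obtain ⟨k, rfl⟩ := hodd
    rw [odd_zero' he, smul_zero, smul_zero]

theorem sqf_sq {h : ℂ → ℂ} (hd : Differentiable ℂ h) (he : ∀ z, h (-z) = h z) (z : ℂ) :
    sqf h (z ^ 2) = h z := (hasSum_sq hd he z).tsum_eq

theorem exists_sq (x : ℂ) : ∃ z : ℂ, z ^ 2 = x :=
  IsAlgClosed.exists_pow_nat_eq x (n := 2) (by norm_num)

theorem hasSum_sqf {h : ℂ → ℂ} (hd : Differentiable ℂ h) (he : ∀ z, h (-z) = h z) (x : ℂ) :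
    HasSum (fun k : ℕ => iteratedDeriv (2 * k) h 0 / ((2 * k).factorial : ℂ) * x ^ k) (sqf h x) := by
  obtain ⟨z, hz⟩ := exists_sq x
  rw [← hz, sqf_sq hd he]
  exact hasSum_sq hd he z

/-- the power series -/
noncomputable def ps (h : ℂ → ℂ) : FormalMultilinearSeries ℂ ℂ ℂ :=
  FormalMultilinearSeries.ofScalars ℂ
    (fun k : ℕ => iteratedDeriv (2 * k) h 0 / ((2 * k).factorial : ℂ))

theorem ps_apply (h : ℂ → ℂ) (n : ℕ) (x : ℂ) :
    ps h n (fun _ => x) = iteratedDeriv (2 * n) h 0 / ((2 * n).factorial : ℂ) * x ^ n := by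
  unfold ps
  rw [FormalMultilinearSeries.ofScalars_apply_eq, smul_eq_mul]

theorem ps_norm (h : ℂ → ℂ) (n : ℕ) :
    ‖ps h n‖ = ‖iteratedDeriv (2 * n) h 0 / ((2 * n).factorial : ℂ)‖ := by
  unfold ps
  exact FormalMultilinearSeries.ofScalars_norm (𝕜 := ℂ) (E := ℂ)
    (fun k : ℕ => iteratedDeriv (2 * k) h 0 / ((2 * k).factorial : ℂ)) n

theorem ps_radius {h : ℂ → ℂ} (hd : Differentiable ℂ h) (he : ∀ z, h (-z) = h z) :
    (ps h).radius = ⊤ := by
  refine FormalMultilinearSeries.radius_eq_top_of_summable_norm _ fun r => ?_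
  have h1 := (hasSum_sqf hd he ((r : ℝ) : ℂ)).summable.norm
  refine h1.congr fun n => ?_
  rw [ps_norm, norm_mul, norm_pow]
  simp

theorem hfps {h : ℂ → ℂ} (hd : Differentiable ℂ h) (he : ∀ z, h (-z) = h z) :
    HasFPowerSeriesOnBall (sqf h) (ps h) 0 ⊤ := by
  refine ⟨by rw [ps_radius hd he], by simp, ?_⟩
  intro y _
  rw [zero_add]
  simp only [ps_apply]
  exact hasSum_sqf hd he y

theorem sqf_diff {h : ℂ → ℂ} (hd : Differentiable ℂ h) (he : ∀ z, h (-z) = h z) :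
    Differentiable ℂ (sqf h) := by
  intro x
  exact (hfps hd he).differentiableOn.differentiableAt (by simp)

theorem sqf_iter {h : ℂ → ℂ} (hd : Differentiable ℂ h) (he : ∀ z, h (-z) = h z) (n : ℕ) :
    iteratedDeriv n (sqf h) 0 =
      (n.factorial : ℂ) * (iteratedDeriv (2 * n) h 0 / ((2 * n).factorial : ℂ)) := by
  have h1 := (hfps hd he).factorial_smul 1 n
  rw [← iteratedDeriv_eq_iteratedFDeriv, ps_apply, one_pow, mul_one, nsmul_eq_mul] at h1
  exact h1.symm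

theorem sqf_conj {h : ℂ → ℂ} (hd : Differentiable ℂ h) (he : ∀ z, h (-z) = h z)
    (hc : ∀ z, h ((starRingEnd ℂ) z) = (starRingEnd ℂ) (h z)) (x : ℂ) :
    sqf h ((starRingEnd ℂ) x) = (starRingEnd ℂ) (sqf h x) := by
  obtain ⟨z, hz⟩ := exists_sq x
  rw [← hz, map_pow, sqf_sq hd he, sqf_sq hd he, hc]

/-! ## The function `EE t` -/

/-- `|XX(it + y)|²` for real `y`, continued to complex `y` -/
noncomputable def EE (t : ℝ) (y : ℂ) : ℂ := XX (I * t + y) * XX (I * t - y)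

theorem EE_diff (t : ℝ) : Differentiable ℂ (EE t) := by
  unfold EE
  exact (XX_diff.comp ((differentiable_const _).add differentiable_id)).mul
    (XX_diff.comp ((differentiable_const _).sub differentiable_id))

theorem EE_neg (t : ℝ) (y : ℂ) : EE t (-y) = EE t y := by
  unfold EE
  rw [sub_neg_eq_add, ← sub_eq_add_neg, mul_comm]

theorem XX_symm (t : ℝ) (y : ℂ) :
    XX (I * t - (starRingEnd ℂ) y) = (starRingEnd ℂ) (XX (I * t + y)) := by
  rw [← XX_conj, ← XX_neg]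
  congr 1
  rw [map_add, map_mul, Complex.conj_I, Complex.conj_ofReal]
  ring

theorem XX_symm' (t : ℝ) (y : ℂ) :
    XX (I * t + (starRingEnd ℂ) y) = (starRingEnd ℂ) (XX (I * t - y)) := by
  have := XX_symm t (-y)
  rw [map_neg, sub_neg_eq_add, ← sub_eq_add_neg] at this
  exact this

theorem EE_conj (t : ℝ) (y : ℂ) : EE t ((starRingEnd ℂ) y) = (starRingEnd ℂ) (EE t y) := by
  unfold EE
  rw [XX_symm, XX_symm', map_mul, mul_comm]

theorem EE_real (t y : ℝ) : EE t y = ((‖XX (I * t + y)‖ ^ 2 : ℝ) : ℂ) := by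
  unfold EE
  have h := XX_symm t (y : ℂ)
  rw [Complex.conj_ofReal] at h
  rw [h, Complex.mul_conj, Complex.normSq_eq_norm_sq]

/-- `EE t` in the variable `y ^ 2` -/
noncomputable def FT (t : ℝ) : ℂ → ℂ := sqf (EE t)

theorem FT_sq (t : ℝ) (z : ℂ) : FT t (z ^ 2) = EE t z := sqf_sq (EE_diff t) (EE_neg t) z

theorem FT_diff (t : ℝ) : Differentiable ℂ (FT t) := sqf_diff (EE_diff t) (EE_neg t)

theorem FT_conj (t : ℝ) (x : ℂ) : FT t ((starRingEnd ℂ) x) = (starRingEnd ℂ) (FT t x) :=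
  sqf_conj (EE_diff t) (EE_neg t) (EE_conj t) x

theorem FT_iter_conj (t : ℝ) (n : ℕ) (x : ℂ) :
    iteratedDeriv n (FT t) ((starRingEnd ℂ) x) = (starRingEnd ℂ) (iteratedDeriv n (FT t) x) :=
  iter_conj (FT t) (FT_conj t) n x

theorem FT_iter (t : ℝ) (n : ℕ) : iteratedDeriv n (FT t) 0 =
    (n.factorial : ℂ) * (iteratedDeriv (2 * n) (EE t) 0 / ((2 * n).factorial : ℂ)) :=
  sqf_iter (EE_diff t) (EE_neg t) n

/-- the coefficient of `y ^ (2 n)` in `|XX(it + y)|²` -/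
noncomputable def LC (n : ℕ) (t : ℝ) : ℝ := (iteratedDeriv n (FT t) 0).re / (n.factorial : ℝ)

theorem FT_iter_real (t : ℝ) (n : ℕ) :
    iteratedDeriv n (FT t) 0 = (((n.factorial : ℝ) * LC n t : ℝ) : ℂ) := by
  have h := FT_iter_conj t n 0
  rw [map_zero] at h
  have h1 := Complex.conj_eq_iff_re.1 h.symm
  unfold LC
  rw [mul_div_cancel₀ _ (by exact_mod_cast n.factorial_ne_zero)]
  exact h1.symm

theorem hasSum_FT (t : ℝ) (x : ℂ) : HasSum (fun k : ℕ => ((LC k t : ℝ) : ℂ) * x ^ k) (FT t x) := by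
  refine hcongr (hasSum_sqf (EE_diff t) (EE_neg t) x) fun k => ?_
  have h1 := FT_iter t k
  rw [FT_iter_real] at h1
  have h2 : (k.factorial : ℂ) ≠ 0 := by exact_mod_cast k.factorial_ne_zero
  push_cast at h1
  rw [mul_left_cancel₀ h2 h1]

theorem hasSum_EE (t y : ℝ) : HasSum (fun k : ℕ => LC k t * y ^ (2 * k)) (‖XX (I * t + y)‖ ^ 2) := by
  have h := hasSum_FT t ((y : ℂ) ^ 2)
  rw [FT_sq, EE_real] at h
  have h2 := Complex.hasSum_re h
  rw [Complex.ofReal_re] at h2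
  have h3 : (fun k : ℕ => LC k t * y ^ (2 * k)) =
      fun k : ℕ => (((LC k t : ℝ) : ℂ) * ((y : ℂ) ^ 2) ^ k).re := by
    funext k
    rw [← pow_mul, ← Complex.ofReal_pow, ← Complex.ofReal_mul, Complex.ofReal_re]
  rw [h3]
  exact h2

end Pool.Agent.TH803.LG
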