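import Pool.Agent.TH803.LG.NT
import Pool.Agent.TH803.LG.Coef
import Pool.Agent.H24R2.JP.Zeros

/-!
# The Riemann hypothesis and the coefficients `LC n t`
-/

set_option autoImplicit false

namespace Pool.Agent.TH803.LG

open Complex Filter Topology Set Metric
open Pool.Agent.H24R2.JP (XX Par)
open Pool.Agent.H24R2.JP.B1h (XX_diff)

/-- (from helper353, Pool.Agent.H353R3.S6) -/
theorem RH_of (h : ∀ s : ℂ, 1 / 2 < s.re → s ≠ 1 → riemannZeta s ≠ 0) : RiemannHypothesis := by
  intro s hs htriv h1
  by_contra hne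
  rcases lt_or_gt_of_ne hne with hlt | hgt
  · by_cases h0 : s.re < 0
    · -- trivial zeros
      have h2 : ∀ n : ℕ, (1 - s) ≠ -n := by
        intro n hn
        have := congrArg Complex.re hn
        simp at this
        have : (0:ℝ) ≤ n := Nat.cast_nonneg n
        linarith
      have h3 : (1 - s) ≠ 1 := by
        intro h3
        have := congrArg Complex.re h3
        simp at this
        linarith
      have key := riemannZeta_one_sub h2 h3
      rw [sub_sub_cancel, hs] at key
      have hz : riemannZeta (1 - s) ≠ 0 := riemannZeta_ne_zero_of_one_lt_re (by simp; linarith)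
      have hG : Complex.Gamma (1 - s) ≠ 0 := Complex.Gamma_ne_zero h2
      have hp : (2 * (Real.pi : ℂ)) ^ (-(1 - s)) ≠ 0 := by
        rw [Complex.cpow_ne_zero_iff]
        left
        have := Real.pi_ne_zero
        simpa using this
      have hc : Complex.cos (Real.pi * (1 - s) / 2) = 0 := by
        by_contra hc
        exact (mul_ne_zero (mul_ne_zero (mul_ne_zero (mul_ne_zero two_ne_zero hp) hG) hc) hz) key.symm
      rw [Complex.cos_eq_zero_iff] at hc
      obtain ⟨k, hk⟩ := hc
      have hpi : (Real.pi : ℂ) ≠ 0 := by exact_mod_cast Real.pi_ne_zero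
      have hs2 : s = -2 * (k : ℂ) := by
        field_simp at hk
        linear_combination (-1 : ℂ) * hk
      have hkpos : 0 < k := by
        have := congrArg Complex.re hs2
        simp at this
        have h5 : (0:ℝ) < k := by linarith
        exact_mod_cast h5
      apply htriv
      refine ⟨(k - 1).toNat, ?_⟩
      have h6 : (((k - 1).toNat : ℕ) : ℂ) = (k : ℂ) - 1 := by
        have : (((k - 1).toNat : ℤ)) = k - 1 := Int.toNat_of_nonneg (by omega)
        have h7 : (((k - 1).toNat : ℤ) : ℂ) = ((k - 1 : ℤ) : ℂ) := by rw [this]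
        push_cast at h7
        exact_mod_cast h7
      rw [h6, hs2]
      ring
    · have h2 : ∀ n : ℕ, s ≠ -n := by
        intro n hn
        rcases Nat.eq_zero_or_pos n with h5 | h5
        · rw [hn, h5] at hs
          simp [riemannZeta_zero] at hs
        · have := congrArg Complex.re hn
          simp at this
          have h6 : (1:ℝ) ≤ n := by exact_mod_cast h5
          linarith
      have key := riemannZeta_one_sub h2 h1
      rw [hs, mul_zero] at key
      refine h (1 - s) (by simp; linarith) ?_ key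
      intro h3
      have : s = 0 := by linear_combination -h3
      rw [this] at hs
      simp [riemannZeta_zero] at hs
  · exact h s hgt h1 hs


/-- Under RH the zeros of `XX` lie on the imaginary axis (from `H986R2.DBN.RHReal`). -/
theorem re_zero (hRH : RiemannHypothesis) (z : ℂ) (hz : XX z = 0) : z.re = 0 := by
  obtain ⟨h1, h2, h3⟩ := Pool.Agent.H24R2.JP.Zer.completed_zero z hz
  have h4 : riemannZeta (1 / 2 + z) = 0 := by
    rw [riemannZeta_def_of_ne_zero h1, h3, zero_div]
  have h5 : ¬∃ n : ℕ, (1 / 2 + z : ℂ) = -2 * (n + 1) := by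
    rintro ⟨n, hn⟩
    refine Pool.Agent.H24R2.JP.Zer.completed_ne_zero (1 - (1 / 2 + z)) ?_ ?_
    · rw [hn]
      have : (1 - -2 * ((n : ℂ) + 1)) = ((3 + 2 * n : ℝ) : ℂ) := by
        push_cast
        ring
      rw [this, Complex.ofReal_re]
      have : (0 : ℝ) ≤ n := Nat.cast_nonneg n
      linarith
    · rw [completedRiemannZeta_one_sub]
      exact h3
  have h6 : (1 / 2 + z : ℂ) ≠ 1 := by
    intro h0
    apply h2
    rw [h0]
    ring
  have h7 := hRH (1 / 2 + z) h4 h5 h6
  have : (1 / 2 + z : ℂ).re = 1 / 2 + z.re := by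
    simp
  rw [this] at h7
  linarith

theorem rh_pos (hRH : RiemannHypothesis) {t : ℝ} (ht : XX (I * t) ≠ 0) (n : ℕ) : 0 < LC n t := by
  refine lc_pos (n1 := 0) (fun x _ hx0 h0 => ?_) n (Nat.zero_le n)
  rw [iteratedDeriv_zero] at h0
  obtain ⟨z, hz⟩ := exists_sq x
  rw [← hz] at h0 hx0
  rw [FT_sq] at h0
  have hre : z.re = 0 := by
    unfold EE at h0
    rcases mul_eq_zero.1 h0 with h | h
    · have := re_zero hRH _ h
      simpa using this
    · have := re_zero hRH _ h
      simpa using this
  rw [sq, Complex.mul_re, hre] at hx0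
  have him : z.im = 0 := by nlinarith
  have hz0 : z = 0 := Complex.ext hre him
  rw [hz0] at h0
  unfold EE at h0
  rw [add_zero, sub_zero] at h0
  exact (mul_ne_zero ht ht) h0

theorem rh_nonneg (hRH : RiemannHypothesis) (n : ℕ) (t : ℝ) : 0 ≤ LC n t := by
  by_contra hcon
  push Not at hcon
  have hU : ∀ᶠ s in 𝓝 t, LC n s < 0 := (LC_cont n).continuousAt.eventually_lt continuousAt_const hcon
  have hz : ∀ᶠ s : ℝ in 𝓝 t, XX (I * s) = 0 := by
    filter_upwards [hU] with s hs
    by_contra h0
    have := rh_pos hRH h0 n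
    linarith
  have hf : AnalyticOnNhd ℂ (fun z : ℂ => XX (I * z)) univ := fun z _ =>
    (XX_diff.comp (differentiable_id.const_mul I)).analyticAt z
  have hfr : ∃ᶠ z : ℂ in 𝓝[≠] (t : ℂ), (fun z : ℂ => XX (I * z)) z = 0 := by
    have h1 : Tendsto (fun s : ℝ => (s : ℂ)) (𝓝[≠] t) (𝓝[≠] (t : ℂ)) := by
      refine tendsto_nhdsWithin_of_tendsto_nhds_of_eventually_within _
        ((Complex.continuous_ofReal.tendsto t).mono_left nhdsWithin_le_nhds) ?_
      filter_upwards [self_mem_nhdsWithin] with s hs
      intro h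
      exact hs (Complex.ofReal_injective h)
    have h2 : ∃ᶠ s : ℝ in 𝓝[≠] t, XX (I * s) = 0 :=
      (hz.filter_mono nhdsWithin_le_nhds).frequently
    exact h1.frequently h2
  have h3 := hf.eqOn_zero_of_preconnected_of_frequently_eq_zero isPreconnected_univ (mem_univ _) hfr
  have h4 := h3 (mem_univ (-I : ℂ))
  simp only [Pi.zero_apply] at h4
  have h5 : I * -I = (1 : ℂ) := by rw [mul_neg, Complex.I_mul_I, neg_neg]
  rw [h5] at h4
  exact XX_ne (z := 1) (by norm_num) h4

theorem rh_of_nonneg (h : ∀ (n : ℕ) (t : ℝ), 0 ≤ LC n t) : RiemannHypothesis := by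
  refine RH_of fun s hs hs1 h0 => ?_
  have hlt : s.re < 1 := by
    by_contra hcon
    exact riemannZeta_ne_zero_of_one_le_re (not_lt.1 hcon) h0
  obtain ⟨y, hy⟩ : ∃ y : ℝ, y = s.re - 1 / 2 := ⟨_, rfl⟩
  have hy0 : 0 < y := by rw [hy]; linarith
  have hX : XX (I * s.im + y) = 0 := by
    have e1 : (1 / 2 + (I * s.im + y) : ℂ) = s := by
      apply Complex.ext
      · simp [hy]
      · simp
    have hne0 : s ≠ 0 := by
      intro h
      rw [h] at hs
      norm_num at hs
    rw [Pool.Agent.H24R2.JP.Zer.XX_eq _ (by rw [e1]; exact hne0) (by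
      rw [e1]; exact sub_ne_zero.2 (Ne.symm hs1)), e1]
    have h2 := riemannZeta_def_of_ne_zero hne0
    rw [h0] at h2
    have h3 : Gammaℝ s ≠ 0 := Gammaℝ_ne_zero_of_re_pos (by linarith)
    have h4 : completedRiemannZeta s = 0 := by
      rcases div_eq_zero_iff.1 h2.symm with h | h
      · exact h
      · exact absurd h h3
    rw [h4, mul_zero]
  have h1 := hasSum_EE s.im y
  rw [hX, norm_zero] at h1
  have h2 : (0 : ℝ) ^ 2 = 0 := by norm_num
  rw [h2] at h1
  have h3 := (hasSum_zero_iff_of_nonneg (fun k => mul_nonneg (h k s.im) (by positivity))).1 h1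
  have h4 : ∀ k, LC k s.im = 0 := by
    intro k
    have := congrFun h3 k
    simp only [Pi.zero_apply] at this
    rcases mul_eq_zero.1 this with h5 | h5
    · exact h5
    · exact absurd h5 (by positivity)
  have h5 := hasSum_FT s.im 1
  simp only [h4, Complex.ofReal_zero, zero_mul] at h5
  exact FT_one_ne s.im (h5.unique hasSum_zero)

end Pool.Agent.TH803.LG
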