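import Pool.Agent.TH803.LG.Pos
import Pool.Agent.TH803.LG.Conv2
import Pool.Agent.TH803.LG.RHq
import Pool.Agent.H986R2.K4.All

/-!
# The Laguerre inequalities and the constant four: assembly
-/

set_option autoImplicit false

namespace Pool.Agent.TH803.LG

open Complex Filter Topology
open Pool.Agent.H986R2.K4 (ZB hh pl vdcQ v0 a1 a2 sab)

theorem Lag_pos_iff (n : ℕ) (x : ℝ) : 0 < Lag n x ↔ 0 < LC n x := by
  rw [LC_eq_Lag]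
  constructor <;> intro h <;> linarith

theorem Lag_nonneg_iff (n : ℕ) (x : ℝ) : 0 ≤ Lag n x ↔ 0 ≤ LC n x := by
  rw [LC_eq_Lag]
  constructor <;> intro h <;> linarith

def UpTo (κ : ℝ) (N : ℕ) : Prop :=
  ∀ (n : ℕ) (x : ℝ), N ≤ n → |x| ≤ Real.exp (κ * n) → 0 < Lag n x

def Rest (κ : ℝ) (N : ℕ) : Prop :=
  ∀ (n : ℕ) (x : ℝ), (n < N ∨ Real.exp (κ * n) < |x|) → 0 ≤ Lag n x

def ZeroFree (θ : ℝ) : Prop := ∀ s : ℂ, θ < s.re → riemannZeta s ≠ 0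

theorem upTo_of {y κ : ℝ} (hy0 : 0 ≤ y) (hy1 : y ≤ 1 / 2) (hZ : ZB y) (hκ : κ * y < 2) :
    ∃ N : ℕ, UpTo κ N := by
  obtain ⟨N, hN⟩ := pos_main hh (pl hh) a1 hy0 hy1 hZ hκ
  exact ⟨N, fun n x hn hx => (Lag_pos_iff n x).2 (hN n hn x hx)⟩

theorem upTo_theta {θ κ : ℝ} (h1 : 1 / 2 ≤ θ) (h2 : θ < 1) (h3 : ZeroFree θ)
    (hκ : κ * (θ - 1 / 2) < 2) : ∃ N : ℕ, UpTo κ N := by
  refine upTo_of (y := θ - 1 / 2) (by linarith) (by linarith) ?_ hκ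
  refine a2 sab a1 (θ - 1 / 2) (by linarith) (by linarith) fun s hs => h3 s ?_
  linarith

theorem final :
    (∀ κ : ℝ, κ < 4 → ∃ N : ℕ, UpTo κ N ∧ (RiemannHypothesis ↔ Rest κ N)) ∧
    (∀ θ : ℝ, 1 / 2 ≤ θ → θ < 1 → ZeroFree θ → ∀ κ : ℝ, κ * (θ - 1 / 2) < 2 → ∃ N : ℕ, UpTo κ N) ∧
    ((∃ κ : ℝ, 4 < κ ∧ ∃ N : ℕ, ∀ (n : ℕ) (x : ℝ), N ≤ n → |x| ≤ Real.exp (κ * n) → 0 ≤ Lag n x) ↔
      ∃ θ : ℝ, θ < 1 ∧ ZeroFree θ) := by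
  refine ⟨fun κ hκ => ?_, fun θ h1 h2 h3 κ hκ => upTo_theta h1 h2 h3 hκ, ?_, ?_⟩
  · obtain ⟨N, hN⟩ := upTo_of (y := 1 / 2) (κ := κ) (by norm_num) le_rfl a1 (by linarith)
    refine ⟨N, hN, fun hRH n x _ => (Lag_nonneg_iff n x).2 (rh_nonneg hRH n x), fun h => ?_⟩
    refine rh_of_nonneg fun n x => (Lag_nonneg_iff n x).1 ?_
    rcases lt_or_ge n N with h1 | h1
    · exact h n x (Or.inl h1)
    · rcases lt_or_ge (Real.exp (κ * n)) |x| with h2 | h2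
      · exact h n x (Or.inr h2)
      · exact (hN n x h1 h2).le
  · rintro ⟨κ, hκ, N, hN⟩
    obtain ⟨y, hy, hs⟩ := conv hh (pl hh) vdcQ v0 a1 κ hκ
      ⟨N, fun n hn x hx => (Lag_nonneg_iff n x).1 (hN n x hn hx)⟩
    exact ⟨1 / 2 + y, by linarith, hs⟩
  · rintro ⟨θ, hθ, h⟩
    obtain ⟨θ', h1, h2, h3⟩ : ∃ θ' : ℝ, 1 / 2 ≤ θ' ∧ θ' < 1 ∧ θ ≤ θ' :=
      ⟨max (1 / 2) θ, le_max_left _ _, max_lt (by norm_num) hθ, le_max_right _ _⟩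
    obtain ⟨κ, hκ4, hκ⟩ : ∃ κ : ℝ, 4 < κ ∧ κ * (θ' - 1 / 2) < 2 := by
      by_cases h4 : θ' = 1 / 2
      · exact ⟨5, by norm_num, by rw [h4]; norm_num⟩
      · have h5 : 0 < θ' - 1 / 2 := by
          have := lt_of_le_of_ne h1 (Ne.symm h4)
          linarith
        have h6 : 4 < 2 / (θ' - 1 / 2) := by
          rw [lt_div_iff₀ h5]; linarith
        refine ⟨(4 + 2 / (θ' - 1 / 2)) / 2, by linarith, ?_⟩
        have h7 : 2 / (θ' - 1 / 2) * (θ' - 1 / 2) = 2 := div_mul_cancel₀ _ h5.ne'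
        nlinarith
    obtain ⟨N, hN⟩ := upTo_theta h1 h2 (fun s hs => h s (by linarith)) hκ
    exact ⟨κ, hκ4, N, fun n x hn hx => (hN n x hn hx).le⟩

end Pool.Agent.TH803.LG
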