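import Pool.Agent.H986R2.K4.AW
import Pool.Agent.H986R2.K4.Lap

/-!
# The saddle point method on the right half of the circle
-/

set_option autoImplicit false

namespace Pool.Agent.TH803.LG

open Complex Filter Topology MeasureTheory Set
open Pool.Agent.H986R2.K4 (S_LAP QQ lapQ)
open Pool.Agent.H986R2.K4.AWAux (seg_le convex_far cos_arc exp_I_re)
open Pool.Agent.H156R2.DZArc (growF hasDeriv_Q gg gg_norm)

/-- the saddle point estimate for the integral over the right half of the circle -/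
lemma core2 (h : S_LAP) (ρ δ : ℝ) (hρ : 0 < ρ) (hρ1 : ρ ≤ 1 / 2) (hδ : 0 < δ) :
    ∃ η : ℝ, ∃ n1 : ℕ, 0 < η ∧ 1 ≤ n1 ∧
    ∀ (n : ℕ) (p : ℂ) (F : ℂ → ℂ), n1 ≤ n →
    (∀ w ∈ Metric.ball (p + 1) ρ, DifferentiableAt ℂ F w ∧ F w ≠ 0 ∧
      ‖logDeriv F w - n‖ ≤ η * n) →
    Continuous (gg F n p) →
    (∀ φ : ℝ, ρ / 5 ≤ |φ| → |φ| ≤ Real.pi / 2 →
      ‖F (p + cexp (φ * I))‖ ≤ Real.exp (-(δ * n)) * ‖F (p + 1)‖) →
    ∫ φ in (-(Real.pi / 2))..(Real.pi / 2), gg F n p φ ≠ 0 := by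
  obtain ⟨s, hs⟩ : ∃ s, s = ρ / 5 := ⟨_, rfl⟩
  have hs0 : 0 < s := by rw [hs]; positivity
  have hs1 : s ≤ 1 / 10 := by rw [hs]; linarith
  have hs2 : 0 < s ^ 2 := by positivity
  obtain ⟨κ', hκ⟩ : ∃ κ', κ' = min (s ^ 2 / 100) (δ / 2) := ⟨_, rfl⟩
  have hκ0 : 0 < κ' := by rw [hκ]; exact lt_min (by positivity) (by positivity)
  have hκ1 : κ' ≤ s ^ 2 / 100 := by rw [hκ]; exact min_le_left _ _
  have hκ2 : κ' ≤ δ / 2 := by rw [hκ]; exact min_le_right _ _
  have hκ3 : κ' ≤ s / 1000 := by nlinarith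
  obtain ⟨η0, c, C, n0, hη0, hc, hC, hn0, H⟩ := h ρ κ' hρ hρ1 hκ0 (by linarith)
  obtain ⟨δ1, hδ1⟩ : ∃ δ1, δ1 = min (s ^ 2 / 10) (δ / 2) := ⟨_, rfl⟩
  have hδ0 : 0 < δ1 := by rw [hδ1]; exact lt_min (by positivity) (by positivity)
  have hδ2 : δ1 ≤ s ^ 2 / 10 := by rw [hδ1]; exact min_le_left _ _
  have hδ3 : δ1 ≤ δ / 2 := by rw [hδ1]; exact min_le_right _ _
  refine ⟨min η0 (s / 100), max n0 (max ⌈100 / s⌉₊ (⌈(16 / (c * δ1)) ^ 2⌉₊)),
    lt_min hη0 (by positivity), le_max_of_le_left hn0, ?_⟩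
  intro n p F hn hF hd hrest hzero
  rw [← hs] at hrest
  have hn0' : n0 ≤ n := (le_max_left _ _).trans hn
  have hn100 : 100 / s ≤ (n : ℝ) := by
    have h1 : ⌈100 / s⌉₊ ≤ n := (le_max_left _ _).trans ((le_max_right _ _).trans hn)
    exact (Nat.le_ceil _).trans (by exact_mod_cast h1)
  have hnc : (16 / (c * δ1)) ^ 2 ≤ (n : ℝ) := by
    have h1 : ⌈(16 / (c * δ1)) ^ 2⌉₊ ≤ n := (le_max_right _ _).trans ((le_max_right _ _).trans hn)
    exact (Nat.le_ceil _).trans (by exact_mod_cast h1)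
  have hnpos : (0 : ℝ) < n := by
    have : 0 < n := by omega
    exact_mod_cast this
  have hη1 : min η0 (s / 100) ≤ s / 100 := min_le_right _ _
  obtain ⟨w0, hw0, -, hlow, hdec, hmain, -⟩ := H n hn0' p F (fun w hw =>
    ⟨(hF w hw).1, (hF w hw).2.1, (hF w hw).2.2.trans
      (mul_le_mul_of_nonneg_right (min_le_left _ _) hnpos.le)⟩)
  rw [← hs] at hdec hmain
  obtain ⟨A, hA⟩ : ∃ A, A = ‖F w0 / (w0 - p) ^ (n + 1)‖ := ⟨_, rfl⟩
  simp only [← hA] at hlow hdec hmain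
  have hF1 : 0 < ‖F (p + 1)‖ := norm_pos_iff.2 (hF _ (Metric.mem_ball_self hρ)).2.1
  have hA0 : 0 < A := lt_of_lt_of_le (by positivity) hlow
  obtain ⟨E, hE⟩ : ∃ E, E = Real.exp (-(δ1 * n)) * A := ⟨_, rfl⟩
  have hE0 : 0 ≤ E := by rw [hE]; exact mul_nonneg (Real.exp_pos _).le hA0.le
  have hne : ∀ w ∈ Metric.ball (p + 1) ρ, w - p ≠ 0 := by
    intro w hw h
    rw [Metric.mem_ball, dist_eq_norm, show w - (p + 1) = (w - p) - 1 by ring, h, zero_sub,
      norm_neg, norm_one] at hw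
    linarith
  have hQ : DifferentiableOn ℂ (fun w => F w / (w - p) ^ (n + 1)) (Metric.ball (p + 1) ρ) :=
    fun w hw => (hasDeriv_Q (hF w hw).1 (hF w hw).2.1 (hne w hw)).differentiableAt.differentiableWithinAt
  obtain ⟨G, hG⟩ := hQ.isExactOn_ball
  -- points near `p + 1`
  have hexp1 : ∀ φ : ℝ, ‖cexp (φ * I) - 1‖ ≤ |φ| := by
    intro φ
    have := Real.norm_exp_I_mul_ofReal_sub_one_le (x := φ)
    rwa [mul_comm I, Real.norm_eq_abs] at this
  have harc : ∀ φ : ℝ, |φ| ≤ s → p + cexp (φ * I) ∈ Metric.ball (p + 1) ρ := by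
    intro φ hφ
    rw [Metric.mem_ball, dist_eq_norm, show p + cexp (φ * I) - (p + 1) = cexp (φ * I) - 1 by ring]
    have := hexp1 φ
    linarith
  have hver : ∀ y : ℝ, |y| ≤ s → ‖w0 + I * y - (p + 1)‖ ≤ 1001 / 1000 * s := by
    intro y hy
    rw [show w0 + I * y - (p + 1) = (w0 - (p + 1)) + I * y by ring]
    refine (norm_add_le _ _).trans ?_
    rw [norm_mul, Complex.norm_I, one_mul, Complex.norm_real, Real.norm_eq_abs]
    linarith
  have hver' : ∀ y : ℝ, |y| ≤ s → w0 + I * y ∈ Metric.ball (p + 1) ρ := by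
    intro y hy
    rw [Metric.mem_ball, dist_eq_norm]
    have := hver y hy
    linarith
  -- the arc
  have I1 : ∫ φ in (-s : ℝ)..s, gg F n p φ =
      G (p + cexp (((s : ℝ) : ℂ) * I)) - G (p + cexp (((-s : ℝ) : ℂ) * I)) := by
    refine intervalIntegral.integral_eq_sub_of_hasDerivAt (f := fun φ : ℝ => G (p + cexp (φ * I)))
      ?_ (hd.intervalIntegrable _ _)
    intro φ hφ
    rw [Set.uIcc_of_le (by linarith)] at hφ
    have h1 := hG _ (harc φ (abs_le.2 ⟨hφ.1, hφ.2⟩))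
    have h2 : HasDerivAt (fun φ : ℝ => p + cexp (φ * I)) (cexp (φ * I) * I) φ := by
      have h3 : HasDerivAt (fun φ : ℝ => (φ : ℂ) * I) (1 * I) φ :=
        (Complex.ofRealCLM.hasDerivAt (x := φ)).mul_const I
      have := h3.cexp.const_add p
      simpa using this
    have := HasDerivAt.scomp φ h1 h2
    refine this.congr_deriv ?_
    rw [smul_eq_mul]
    unfold gg
    ring
  have I2 : ∫ y in (-s : ℝ)..s, I * (F (w0 + I * y) / (w0 + I * y - p) ^ (n + 1)) =
      G (w0 + I * ((s : ℝ) : ℂ)) - G (w0 + I * ((-s : ℝ) : ℂ)) := by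
    refine intervalIntegral.integral_eq_sub_of_hasDerivAt (f := fun y : ℝ => G (w0 + I * y)) ?_ ?_
    · intro y hy
      rw [Set.uIcc_of_le (by linarith)] at hy
      have h1 := hG _ (hver' y (abs_le.2 ⟨hy.1, hy.2⟩))
      have h2 : HasDerivAt (fun y : ℝ => w0 + I * y) I y := by
        have h3 : HasDerivAt (fun y : ℝ => I * (y : ℂ)) (I * 1) y :=
          (Complex.ofRealCLM.hasDerivAt (x := y)).const_mul I
        simpa using h3.const_add w0
      have := HasDerivAt.scomp y h1 h2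
      exact this.congr_deriv (by rw [smul_eq_mul])
    · refine ContinuousOn.intervalIntegrable ?_
      rw [Set.uIcc_of_le (by linarith)]
      intro y hy
      have h1 := (hQ _ (hver' y (abs_le.2 ⟨hy.1, hy.2⟩))).differentiableAt
        (Metric.isOpen_ball.mem_nhds (hver' y (abs_le.2 ⟨hy.1, hy.2⟩)))
      have h2 : ContinuousAt (fun y : ℝ => w0 + I * (y : ℂ)) y := by fun_prop
      exact ((h1.continuousAt.comp_of_eq h2 rfl).const_mul I |>.continuousWithinAt)
  have I3 : c / Real.sqrt n * A ≤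
      ‖G (w0 + I * ((s : ℝ) : ℂ)) - G (w0 + I * ((-s : ℝ) : ℂ))‖ := by
    rw [← I2, intervalIntegral.integral_const_mul, norm_mul, Complex.norm_I, one_mul]
    exact hmain
  have hconn : ∀ y : ℝ, |y| = s →
      ‖G (p + cexp ((y : ℂ) * I)) - G (w0 + I * (y : ℂ))‖ ≤ 1 / 50 * E := by
    intro y hy
    have h0 : ‖G (p + cexp ((y : ℂ) * I)) - G (w0 + I * (y : ℂ))‖ ≤
        1 / 50 * (Real.exp (-(s ^ 2 / 10 * n)) * A) := by
      refine seg_le hs0 hs1 (by linarith) hρ1 hη1 hn100 hF hG ?_ (hver y hy.le) ?_ ?_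
      · rw [show p + cexp ((y : ℂ) * I) - (p + 1) = cexp ((y : ℂ) * I) - 1 by ring]
        have := hexp1 y
        linarith
      · rw [show p + cexp ((y : ℂ) * I) - (w0 + I * (y : ℂ)) =
          (cexp ((y : ℂ) * I) - 1 - (y : ℂ) * I) - (w0 - (p + 1)) by ring]
        refine (norm_sub_le _ _).trans ?_
        have hn1 : ‖(y : ℂ) * I‖ = s := by
          rw [norm_mul, Complex.norm_I, mul_one, Complex.norm_real, Real.norm_eq_abs, hy]
        have h1 := Complex.norm_exp_sub_one_sub_id_le (x := (y : ℂ) * I) (by rw [hn1]; linarith)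
        rw [hn1] at h1
        linarith
      · have h1 := hdec y hy.le
        have h2 : y ^ 2 = s ^ 2 := by rw [← sq_abs, hy]
        rw [h2] at h1
        exact h1
    refine h0.trans ?_
    rw [hE]
    have h1 : Real.exp (-(s ^ 2 / 10 * n)) ≤ Real.exp (-(δ1 * n)) := by
      refine Real.exp_le_exp.2 (neg_le_neg ?_)
      exact mul_le_mul_of_nonneg_right hδ2 hnpos.le
    have h2 := mul_le_mul_of_nonneg_right h1 hA0.le
    linarith
  have harcle : c / Real.sqrt n * A - 1 / 25 * E ≤ ‖∫ φ in (-s : ℝ)..s, gg F n p φ‖ := by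
    rw [I1]
    have h1 := hconn s (by rw [abs_of_pos hs0])
    have h2 := hconn (-s) (by rw [abs_neg, abs_of_pos hs0])
    have h3 := norm_add₃_le (a := G (p + cexp (((s : ℝ) : ℂ) * I)) - G (p + cexp (((-s : ℝ) : ℂ) * I)))
      (b := -(G (p + cexp (((s : ℝ) : ℂ) * I)) - G (w0 + I * ((s : ℝ) : ℂ))))
      (c := G (p + cexp (((-s : ℝ) : ℂ) * I)) - G (w0 + I * ((-s : ℝ) : ℂ)))
    rw [norm_neg, show G (p + cexp (((s : ℝ) : ℂ) * I)) - G (p + cexp (((-s : ℝ) : ℂ) * I)) +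
      -(G (p + cexp (((s : ℝ) : ℂ) * I)) - G (w0 + I * ((s : ℝ) : ℂ))) +
      (G (p + cexp (((-s : ℝ) : ℂ) * I)) - G (w0 + I * ((-s : ℝ) : ℂ))) =
      G (w0 + I * ((s : ℝ) : ℂ)) - G (w0 + I * ((-s : ℝ) : ℂ)) by ring] at h3
    linarith
  -- the rest of the circle
  have hgg : ∀ φ : ℝ, s ≤ |φ| → |φ| ≤ Real.pi / 2 → ‖gg F n p φ‖ ≤ E := by
    intro φ h1 h2
    rw [gg_norm, hE]
    refine (hrest φ h1 h2).trans ?_
    have h3 : ‖F (p + 1)‖ ≤ Real.exp (κ' * n) * A := by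
      calc ‖F (p + 1)‖ = Real.exp (κ' * n) * (Real.exp (-(κ' * n)) * ‖F (p + 1)‖) := by
            rw [← mul_assoc, ← Real.exp_add, show (κ' * n + -(κ' * n) : ℝ) = 0 by ring,
              Real.exp_zero, one_mul]
        _ ≤ Real.exp (κ' * n) * A := mul_le_mul_of_nonneg_left hlow (Real.exp_pos _).le
    calc Real.exp (-(δ * n)) * ‖F (p + 1)‖ ≤ Real.exp (-(δ * n)) * (Real.exp (κ' * n) * A) :=
          mul_le_mul_of_nonneg_left h3 (Real.exp_pos _).le
      _ = Real.exp (-(δ * n) + κ' * n) * A := by rw [Real.exp_add]; ring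
      _ ≤ Real.exp (-(δ1 * n)) * A := by
        refine mul_le_mul_of_nonneg_right (Real.exp_le_exp.2 ?_) hA0.le
        have h4 : (κ' + δ1) * n ≤ δ * n := mul_le_mul_of_nonneg_right (by linarith) hnpos.le
        linarith
  have hpi : Real.pi ≤ 315 / 100 := by
    have := Real.pi_lt_d2
    linarith
  have hpi3 : 3 < Real.pi := Real.pi_gt_three
  have R1 : ‖∫ φ in (-(Real.pi / 2))..(-s : ℝ), gg F n p φ‖ ≤ E * 4 := by
    refine (intervalIntegral.norm_integral_le_of_norm_le_const (C := E) ?_).trans ?_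
    · intro φ hφ
      rw [Set.uIoc_of_le (by linarith)] at hφ
      have h0 : φ ≤ 0 := by linarith [hφ.2]
      refine hgg φ ?_ ?_
      · rw [abs_of_nonpos h0]; linarith [hφ.2]
      · rw [abs_of_nonpos h0]; linarith [hφ.1]
    · refine mul_le_mul_of_nonneg_left ?_ hE0
      rw [abs_of_nonneg (by linarith)]
      linarith
  have R2 : ‖∫ φ in (s : ℝ)..(Real.pi / 2), gg F n p φ‖ ≤ E * 4 := by
    refine (intervalIntegral.norm_integral_le_of_norm_le_const (C := E) ?_).trans ?_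
    · intro φ hφ
      rw [Set.uIoc_of_le (by linarith)] at hφ
      have h0 : 0 ≤ φ := by linarith [hφ.1]
      refine hgg φ ?_ ?_
      · rw [abs_of_nonneg h0]; linarith [hφ.1]
      · rw [abs_of_nonneg h0]; linarith [hφ.2]
    · refine mul_le_mul_of_nonneg_left ?_ hE0
      rw [abs_of_nonneg (by linarith)]
      linarith
  have hci := fun a b : ℝ => hd.intervalIntegrable (μ := volume) a b
  have hsplit : ∫ φ in (-(Real.pi / 2))..(Real.pi / 2), gg F n p φ =
      (∫ φ in (-(Real.pi / 2))..(-s : ℝ), gg F n p φ) + (∫ φ in (-s : ℝ)..s, gg F n p φ) +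
        ∫ φ in (s : ℝ)..(Real.pi / 2), gg F n p φ := by
    rw [intervalIntegral.integral_add_adjacent_intervals (hci _ _) (hci _ _),
      intervalIntegral.integral_add_adjacent_intervals (hci _ _) (hci _ _)]
  have htot : c / Real.sqrt n * A - 9 * E ≤ ‖∫ φ in (-(Real.pi / 2))..(Real.pi / 2), gg F n p φ‖ := by
    have h3 := norm_add₃_le (a := ∫ φ in (-(Real.pi / 2))..(Real.pi / 2), gg F n p φ)
      (b := -(∫ φ in (-(Real.pi / 2))..(-s : ℝ), gg F n p φ))
      (c := -(∫ φ in (s : ℝ)..(Real.pi / 2), gg F n p φ))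
    rw [norm_neg, norm_neg, show (∫ φ in (-(Real.pi / 2))..(Real.pi / 2), gg F n p φ) +
      -(∫ φ in (-(Real.pi / 2))..(-s : ℝ), gg F n p φ) + -(∫ φ in (s : ℝ)..(Real.pi / 2), gg F n p φ) =
      ∫ φ in (-s : ℝ)..s, gg F n p φ by rw [hsplit]; ring] at h3
    linarith
  have hsq : 0 < Real.sqrt n := Real.sqrt_pos.2 hnpos
  have hsmall : 9 * E ≤ 9 / 16 * (c / Real.sqrt n * A) := by
    have h1 : 16 / (c * δ1) ≤ Real.sqrt n := Real.le_sqrt_of_sq_le hnc
    have h2 : (δ1 * n) * Real.exp (-(δ1 * n)) ≤ 1 := by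
      have h3 := Real.add_one_le_exp (δ1 * n)
      calc (δ1 * n) * Real.exp (-(δ1 * n)) ≤
            Real.exp (δ1 * n) * Real.exp (-(δ1 * n)) :=
            mul_le_mul_of_nonneg_right (by linarith) (Real.exp_pos _).le
        _ = 1 := by rw [← Real.exp_add]; simp
    have h4 : Real.exp (-(δ1 * n)) ≤ 1 / 16 * (c / Real.sqrt n) := by
      have h5 : Real.sqrt n * Real.sqrt n = n := Real.mul_self_sqrt hnpos.le
      have h6 : Real.exp (-(δ1 * n)) ≤ 1 / (δ1 * n) := by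
        rw [le_div_iff₀ (by positivity)]
        linarith
      refine h6.trans ?_
      have h7 : 16 ≤ Real.sqrt n * (c * δ1) := by
        rwa [div_le_iff₀ (by positivity)] at h1
      rw [show 1 / 16 * (c / Real.sqrt n) = c / (16 * Real.sqrt n) by field_simp,
        div_le_div_iff₀ (by positivity) (by positivity)]
      have h8 := mul_le_mul_of_nonneg_left h7 hsq.le
      calc 1 * (16 * Real.sqrt n) = Real.sqrt n * 16 := by ring
        _ ≤ Real.sqrt n * (Real.sqrt n * (c * δ1)) := h8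
        _ = c * (δ1 * n) := by linear_combination (c * δ1) * h5
    rw [hE]
    have := mul_le_mul_of_nonneg_right h4 hA0.le
    linarith
  rw [hzero, norm_zero] at htot
  have : 0 < c / Real.sqrt n * A := by positivity
  linarith


end Pool.Agent.TH803.LG
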