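import Pool.Agent.TH803.LG.AppF
import Pool.Agent.H24R2.JP.Mom

/-!
# `FT t` is not a polynomial; positivity of all large coefficients
-/

set_option autoImplicit false

namespace Pool.Agent.TH803.LG

open Complex Filter Metric Topology Set MeasureTheory
open Pool.Agent.H24R2.JP (XX)
open Pool.Agent.H24R2.JP.MomAux (XX_eq L)
open Pool.Agent.Helper242.KK (Ph)

/-- `XX` tends to zero on the imaginary axis -/
theorem XX_imag_tendsto : Tendsto (fun u : ℝ => XX (I * u)) (cocompact ℝ) (𝓝 0) := by
  have h := Real.tendsto_integral_exp_smul_cocompact (fun v : ℝ => ((Ph v : ℝ) : ℂ))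
  have h2 : Tendsto (fun u : ℝ => -(2 * Real.pi)⁻¹ * u) (cocompact ℝ) (cocompact ℝ) := by
    have hne : (-(2 * Real.pi)⁻¹ : ℝ) ≠ 0 := by
      have := Real.pi_pos
      simp [Real.pi_ne_zero]
    exact (Homeomorph.mulLeft₀ _ hne).isClosedEmbedding.tendsto_cocompact
  have h3 := (h.comp h2).const_mul (8 : ℂ)
  rw [mul_zero] at h3
  refine h3.congr fun u => ?_
  rw [XX_eq]
  show 8 * _ = 8 * L Ph (I * u)
  congr 1
  unfold L
  refine integral_congr_ae (Eventually.of_forall fun v => ?_)
  simp only
  rw [Circle.smul_def, Real.fourierChar_apply, smul_eq_mul, mul_comm]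
  congr 2
  push_cast
  have : (Real.pi : ℂ) ≠ 0 := by exact_mod_cast Real.pi_ne_zero
  field_simp

theorem iter_zero_of {f : ℂ → ℂ} {n : ℕ} (h : ∀ x, iteratedDeriv n f x = 0) (k : ℕ) (hk : n ≤ k) :
    iteratedDeriv k f 0 = 0 := by
  obtain ⟨j, rfl⟩ := Nat.exists_eq_add_of_le hk
  have h1 : iteratedDeriv n f = fun _ => 0 := funext h
  rw [Nat.add_comm, iteratedDeriv_eq_iterate, Function.iterate_add_apply, ← iteratedDeriv_eq_iterate,
    ← iteratedDeriv_eq_iterate, h1]
  simp

theorem FT_nt (t : ℝ) (n : ℕ) : ∃ x, iteratedDeriv n (FT t) x ≠ 0 := by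
  by_contra hcon
  push Not at hcon
  have hL : ∀ k, n ≤ k → LC k t = 0 := by
    intro k hk
    have h1 := iter_zero_of hcon k hk
    unfold LC
    rw [h1]
    simp
  -- the polynomial
  obtain ⟨p, hp⟩ : ∃ p : Polynomial ℝ, p = ∑ k ∈ Finset.range n,
      Polynomial.C ((-1) ^ k * LC k t) * Polynomial.X ^ (2 * k) := ⟨_, rfl⟩
  have hpe : ∀ s : ℝ, ((p.eval s : ℝ) : ℂ) = XX (I * (t + s : ℝ)) * XX (I * (t - s : ℝ)) := by
    intro s
    have h1 : HasSum (fun k : ℕ => ((LC k t : ℝ) : ℂ) * ((I * s) ^ 2) ^ k)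
        (∑ k ∈ Finset.range n, ((LC k t : ℝ) : ℂ) * ((I * s) ^ 2) ^ k) := by
      apply hasSum_sum_of_ne_finset_zero
      intro k hk
      rw [Finset.mem_range, not_lt] at hk
      rw [hL k hk]
      simp
    have h2 := (hasSum_FT t ((I * s) ^ 2)).unique h1
    rw [FT_sq] at h2
    have e1 : EE t (I * s) = XX (I * (t + s : ℝ)) * XX (I * (t - s : ℝ)) := by
      unfold EE
      push_cast
      congr 2 <;> ring
    rw [← e1, h2, hp, Polynomial.eval_finsetSum]
    push_cast
    refine Finset.sum_congr rfl fun k _ => ?_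
    simp only [Polynomial.eval_mul, Polynomial.eval_C, Polynomial.eval_pow, Polynomial.eval_X]
    rw [mul_pow, Complex.I_sq]
    push_cast
    ring
  have hlim : Tendsto (fun s : ℝ => p.eval s) atTop (𝓝 0) := by
    have t1 : Tendsto (fun s : ℝ => t + s) atTop (cocompact ℝ) :=
      (tendsto_atTop_add_const_left _ _ tendsto_id).mono_right atTop_le_cocompact
    have t2 : Tendsto (fun s : ℝ => t - s) atTop (cocompact ℝ) := by
      have : Tendsto (fun s : ℝ => t + -s) atTop atBot :=
        tendsto_atBot_add_const_left _ _ tendsto_neg_atTop_atBot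
      refine (this.mono_right atBot_le_cocompact).congr fun s => ?_
      ring
    have h1 := (XX_imag_tendsto.comp t1).mul (XX_imag_tendsto.comp t2)
    rw [mul_zero] at h1
    have h2 : Tendsto (fun s : ℝ => ((p.eval s : ℝ) : ℂ)) atTop (𝓝 ((0 : ℝ) : ℂ)) := by
      rw [Complex.ofReal_zero]
      refine h1.congr fun s => ?_
      rw [hpe]
      rfl
    have h3 := (Complex.continuous_re.tendsto _).comp h2
    simpa [Function.comp_def] using h3
  have hdeg : p.degree ≤ 0 := by
    rw [← Polynomial.isBoundedUnder_abs_atTop_iff]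
    exact (hlim.abs).isBoundedUnder_le
  have hpC := Polynomial.eq_C_of_degree_le_zero hdeg
  have hp0 : p = 0 := by
    have h1 : Tendsto (fun _ : ℝ => p.coeff 0) atTop (𝓝 0) := by
      refine hlim.congr fun s => ?_
      conv_lhs => rw [hpC]
      simp
    have h2 : p.coeff 0 = 0 := (tendsto_nhds_unique tendsto_const_nhds h1)
    rw [hpC, h2, Polynomial.C_0]
  have hall : ∀ k, LC k t = 0 := by
    intro k
    by_cases hk : n ≤ k
    · exact hL k hk
    · have h1 : p.coeff (2 * k) = (-1) ^ k * LC k t := by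
        rw [hp, Polynomial.finsetSum_coeff, Finset.sum_eq_single k]
        · rw [Polynomial.coeff_C_mul, Polynomial.coeff_X_pow, if_pos rfl, mul_one]
        · intro j _ hj
          rw [Polynomial.coeff_C_mul, Polynomial.coeff_X_pow, if_neg (by omega), mul_zero]
        · intro h
          exact absurd (Finset.mem_range.2 (not_le.1 hk)) h
      rw [hp0, Polynomial.coeff_zero] at h1
      have h2 : ((-1 : ℝ)) ^ k ≠ 0 := pow_ne_zero _ (by norm_num)
      rcases mul_eq_zero.1 h1.symm with h | h
      · exact absurd h h2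
      · exact h
  have h1 := hasSum_FT t 1
  simp only [hall] at h1
  simp only [Complex.ofReal_zero, zero_mul] at h1
  exact FT_one_ne t (h1.unique hasSum_zero)

/-- if some derivative is zero-free in the right part of `Par`, all later coefficients are positive -/
theorem lc_pos {t : ℝ} {n1 : ℕ} (hz : ∀ x ∈ Pool.Agent.H24R2.JP.Par, 0 ≤ x.re →
    iteratedDeriv n1 (FT t) x ≠ 0) (n : ℕ) (hn : n1 ≤ n) : 0 < LC n t := by
  obtain ⟨P, hP⟩ := FT_app t
  have hch := chain (FT_diff t) hP n1 hz (FT_nt t)
  have hne : ∀ m, n1 ≤ m → LC m t ≠ 0 := by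
    intro m hm h0
    have h1 := (hch m hm).1
    rw [FT_iter_real, h0] at h1
    simp at h1
  have hrat : ∀ m, n1 ≤ m → 0 < LC (m + 1) t / LC m t := by
    intro m hm
    have h1 := (hch m hm).2
    rw [FT_iter_real, FT_iter_real, ← Complex.ofReal_div, Complex.ofReal_re] at h1
    have f1 : (0 : ℝ) < (m.factorial : ℝ) := by exact_mod_cast m.factorial_pos
    have f2 : (0 : ℝ) < ((m + 1).factorial : ℝ) := by exact_mod_cast (m + 1).factorial_pos
    have h2 : ((m + 1).factorial : ℝ) * LC (m + 1) t / ((m.factorial : ℝ) * LC m t) =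
        ((m + 1).factorial / (m.factorial : ℝ)) * (LC (m + 1) t / LC m t) := by
      have := hne m hm
      field_simp
    rw [h2] at h1
    have h3 : 0 < ((m + 1).factorial : ℝ) / (m.factorial : ℝ) := div_pos f2 f1
    have h4 : 0 ≤ LC (m + 1) t / LC m t := by
      by_contra hcon
      push Not at hcon
      have := mul_neg_of_pos_of_neg h3 hcon
      linarith
    exact lt_of_le_of_ne h4 (Ne.symm (div_ne_zero (hne _ (by omega)) (hne _ hm)))
  have hsame : ∀ m, n1 ≤ m → 0 < LC m t / LC n1 t := by
    intro m hm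
    induction m, hm using Nat.le_induction with
    | base => rw [div_self (hne _ le_rfl)]; exact one_pos
    | succ m hm ih =>
      have h1 := mul_pos (hrat m hm) ih
      have h2 : LC (m + 1) t / LC m t * (LC m t / LC n1 t) = LC (m + 1) t / LC n1 t := by
        have := hne m hm
        field_simp
      rwa [h2] at h1
  rcases lt_or_gt_of_ne (hne n1 le_rfl) with hneg | hpos
  · exfalso
    have hnegall : ∀ m, n1 ≤ m → LC m t < 0 := by
      intro m hm
      have h1 := hsame m hm
      by_contra hcon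
      have := div_nonpos_of_nonneg_of_nonpos (not_lt.1 hcon) hneg.le
      linarith
    -- choose a large `y`
    obtain ⟨C, hC⟩ : ∃ C : ℝ, C = ∑ k ∈ Finset.range n1, |LC k t| := ⟨_, rfl⟩
    have hC0 : 0 ≤ C := by rw [hC]; positivity
    obtain ⟨y, hy⟩ : ∃ y : ℝ, y = 1 + C / (-LC n1 t) := ⟨_, rfl⟩
    have hy1 : 1 ≤ y := by
      rw [hy]
      have : 0 ≤ C / (-LC n1 t) := div_nonneg hC0 (by linarith)
      linarith
    have hy0 : 0 < y := by linarith
    have hb : ∀ k : ℕ, LC k t * y ^ (2 * k) ≤
        (if k < n1 then |LC k t| * (y ^ (2 * n1) / y) else 0) +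
        (if k = n1 then LC n1 t * y ^ (2 * n1) else 0) := by
      intro k
      rcases lt_trichotomy k n1 with h | h | h
      · rw [if_pos h, if_neg h.ne, add_zero]
        have h1 : y ^ (2 * k) ≤ y ^ (2 * n1) / y := by
          rw [le_div_iff₀ hy0, ← pow_succ]
          exact pow_le_pow_right₀ hy1 (by omega)
        calc LC k t * y ^ (2 * k) ≤ |LC k t| * y ^ (2 * k) :=
              mul_le_mul_of_nonneg_right (le_abs_self _) (by positivity)
          _ ≤ _ := mul_le_mul_of_nonneg_left h1 (abs_nonneg _)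
      · rw [h, if_neg (lt_irrefl _), if_pos rfl, zero_add]
      · rw [if_neg (by omega), if_neg (by omega), add_zero]
        exact (mul_neg_of_neg_of_pos (hnegall k h.le) (by positivity)).le
    have hs : HasSum (fun k : ℕ => (if k < n1 then |LC k t| * (y ^ (2 * n1) / y) else 0) +
        (if k = n1 then LC n1 t * y ^ (2 * n1) else 0))
        (C * (y ^ (2 * n1) / y) + LC n1 t * y ^ (2 * n1)) := by
      apply HasSum.add
      · have h1 : HasSum (fun k : ℕ => if k < n1 then |LC k t| * (y ^ (2 * n1) / y) else 0)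
            (∑ k ∈ Finset.range n1, (if k < n1 then |LC k t| * (y ^ (2 * n1) / y) else 0)) :=
          hasSum_sum_of_ne_finset_zero (fun k hk => by
            rw [Finset.mem_range] at hk
            rw [if_neg hk])
        have h2 : ∑ k ∈ Finset.range n1, (if k < n1 then |LC k t| * (y ^ (2 * n1) / y) else 0) =
            C * (y ^ (2 * n1) / y) := by
          rw [hC, Finset.sum_mul]
          refine Finset.sum_congr rfl fun k hk => ?_
          rw [if_pos (Finset.mem_range.1 hk)]
        rwa [h2] at h1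
      · exact hasSum_ite_eq n1 (LC n1 t * y ^ (2 * n1))
    have h3 := hasSum_le hb (hasSum_EE t y) hs
    have h4 : 0 ≤ ‖XX (I * t + y)‖ ^ 2 := by positivity
    have hypow : 0 < y ^ (2 * n1) := by positivity
    have h5 : C / y < -LC n1 t := by
      rw [div_lt_iff₀ hy0, hy, mul_add, mul_one, mul_div_cancel₀ _ (by linarith)]
      linarith
    have h6 : C * (y ^ (2 * n1) / y) + LC n1 t * y ^ (2 * n1) = y ^ (2 * n1) * (C / y + LC n1 t) := by
      field_simp
    rw [h6] at h3
    have h7 : y ^ (2 * n1) * (C / y + LC n1 t) < 0 := mul_neg_of_pos_of_neg hypow (by linarith)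
    linarith
  · have h1 := hsame n hn
    by_contra hcon
    have := div_nonpos_of_nonpos_of_nonneg (not_lt.1 hcon) hpos.le
    linarith

end Pool.Agent.TH803.LG
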