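import Pool.Agent.TH803.LG.UU
import Pool.Agent.TH803.LG.Coef
import Pool.Agent.TH803.LG.Arc2
import Pool.Agent.TH803.LG.Norm2

/-!
# Positivity of the Laguerre expressions up to height `exp (κ n)`
-/

set_option autoImplicit false

namespace Pool.Agent.TH803.LG

open Complex Filter Topology MeasureTheory Set
open Pool.Agent.H24R2.JP (XX HH Om Par)
open Pool.Agent.H986R2.K4 (ZB S_HH S_PL QQ)

/-- windows, at `0` -/
theorem wind0 (h1 : S_HH) (h2 : S_PL) {y r0 : ℝ} (hy0 : 0 ≤ y) (hy1 : y ≤ 1 / 2) (hZ : ZB y)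
    (hyr : y < r0) : ∃ T0 : ℝ, 2 ≤ T0 ∧ ∀ (t : ℝ) (n : ℕ), T0 ≤ t → r0 * Om t ≤ n →
    (n : ℝ) ≤ 2 * r0 * Om t → iteratedDeriv n (FT t) 0 ≠ 0 := by
  have hr0 : 0 < r0 := by linarith
  obtain ⟨κ, hκ0, hκ1, -, H⟩ := norm2 h1 h2 y r0 hy0 hy1 hZ hyr
  obtain ⟨η, q0, n0, hη, hq0, -, hnv⟩ := nv κ hκ0 hκ1
  obtain ⟨T0, hT0, H0⟩ := H 3 η le_rfl hη
  refine ⟨max T0 (Real.exp (2 * n0 / r0)), hT0.trans (le_max_left _ _), ?_⟩
  intro t n ht hn1 hn2
  have ht1 : T0 ≤ t := (le_max_left _ _).trans ht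
  have ht2 : Real.exp (2 * n0 / r0) ≤ t := (le_max_right _ _).trans ht
  have htpos : 0 < t := by linarith
  have hlt : 0 < Real.log t := Real.log_pos (by linarith)
  have hOm : Om t = Real.log t / 2 := rfl
  have hOm0 : 0 < Om t := by rw [hOm]; linarith
  have hn0 : n0 ≤ n := by
    have h3 := (Real.le_log_iff_exp_le htpos).2 ht2
    rw [div_le_iff₀ hr0] at h3
    have h4 : (n0 : ℝ) ≤ n := by
      rw [hOm] at hn1
      linarith
    exact_mod_cast h4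
  have hnpos : (0 : ℝ) < n := lt_of_lt_of_le (mul_pos hr0 hOm0) hn1
  have hr : 0 < (n : ℝ) / Om t := div_pos hnpos hOm0
  have hQ := H0 t n ht1 hn1 hn2
  have h3 := hnv n _ 0 hn0 hQ (by rw [norm_zero]; exact hq0.le)
  refine deriv_ne t (n / Om t) hr n 0 (by rw [norm_zero]; positivity) ?_
  rw [zero_div]
  exact h3

/-- far windows, in the unit disc -/
theorem wind1 (h1 : S_HH) (h2 : S_PL) (hZ : ZB (1 / 2)) : ∃ X T0 : ℝ, 1 ≤ X ∧ 2 ≤ T0 ∧
    ∀ (t : ℝ) (n : ℕ), T0 ≤ t → X * Om t ≤ n → (n : ℝ) ≤ 2 * X * Om t →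
    ∀ Y0 : ℂ, ‖Y0‖ ≤ 1 → iteratedDeriv n (FT t) Y0 ≠ 0 := by
  obtain ⟨η, q0, n0, hη, hq0, hq1, hnv⟩ := nv (1 / 4) (by norm_num) (by norm_num)
  obtain ⟨X, hX⟩ : ∃ X : ℝ, X = max 2 (1 / q0) := ⟨_, rfl⟩
  have hX2 : 2 ≤ X := by rw [hX]; exact le_max_left _ _
  have hXq : 1 ≤ q0 * X := by
    have : 1 / q0 ≤ X := by rw [hX]; exact le_max_right _ _
    rw [div_le_iff₀ hq0] at this
    linarith
  obtain ⟨κ, hκ0, hκ1, hκ2, H⟩ := norm2 h1 h2 (1 / 2) X (by norm_num) le_rfl hZ (by linarith)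
  have hκ := hκ2 (by linarith)
  subst hκ
  obtain ⟨T0, hT0, H0⟩ := H 3 η le_rfl hη
  refine ⟨X, max T0 (Real.exp (2 * n0)), by linarith, hT0.trans (le_max_left _ _), ?_⟩
  intro t n ht hn1 hn2 Y0 hY0
  have ht1 : T0 ≤ t := (le_max_left _ _).trans ht
  have ht2 : Real.exp (2 * n0) ≤ t := (le_max_right _ _).trans ht
  have htpos : 0 < t := by linarith
  have hlt : 0 < Real.log t := Real.log_pos (by linarith)
  have hOm : Om t = Real.log t / 2 := rfl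
  have hOm0 : 0 < Om t := by rw [hOm]; linarith
  have hn0 : n0 ≤ n := by
    have h3 := (Real.le_log_iff_exp_le htpos).2 ht2
    have h4 : (n0 : ℝ) ≤ n := by
      have h5 : 1 * Om t ≤ X * Om t := mul_le_mul_of_nonneg_right (by linarith) hOm0.le
      rw [hOm] at hn1 h5
      linarith
    exact_mod_cast h4
  have hrX : X ≤ (n : ℝ) / Om t := by
    rw [le_div_iff₀ hOm0]; exact hn1
  have hr : 0 < (n : ℝ) / Om t := by linarith
  have hr2 : 1 < ((n : ℝ) / Om t) ^ 2 := by nlinarith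
  have hQ := H0 t n ht1 hn1 hn2
  refine deriv_ne t (n / Om t) hr n Y0 (by linarith) ?_
  refine hnv n _ _ hn0 hQ ?_
  rw [norm_div, norm_pow, Complex.norm_real, Real.norm_eq_abs, abs_of_pos hr,
    div_le_iff₀ (by positivity)]
  have h6 : 1 ≤ q0 * ((n : ℝ) / Om t) ^ 2 := by
    have h7 : (1 : ℝ) ≤ (n : ℝ) / Om t := by linarith
    calc (1 : ℝ) ≤ q0 * X := hXq
      _ ≤ q0 * ((n : ℝ) / Om t) := mul_le_mul_of_nonneg_left hrX hq0.le
      _ ≤ q0 * ((n : ℝ) / Om t) ^ 2 := by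
          apply mul_le_mul_of_nonneg_left _ hq0.le
          nlinarith
  linarith

theorem par_one {x : ℂ} (hx : x ∈ Par) (h : 0 ≤ x.re) : ‖x‖ ≤ 1 := by
  have h1 : x.re + x.im ^ 2 ≤ 1 / 4 := hx
  have h2 := Complex.norm_le_abs_re_add_abs_im x
  have h3 : |x.re| ≤ 1 / 4 := abs_le.2 ⟨by linarith, by nlinarith [sq_nonneg x.im]⟩
  have h4 : |x.im| ≤ 1 / 2 := by
    apply abs_le_of_sq_le_sq _ (by norm_num)
    nlinarith
  linarith

/-- far coefficients are positive -/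
theorem far_pos (h1 : S_HH) (h2 : S_PL) (hZ : ZB (1 / 2)) : ∃ X T0 : ℝ, 1 ≤ X ∧ 2 ≤ T0 ∧
    ∀ (t : ℝ) (n : ℕ), T0 ≤ t → X * Om t ≤ n → 0 < LC n t := by
  obtain ⟨X, T0, hX, hT0, H⟩ := wind1 h1 h2 hZ
  refine ⟨X, max T0 (Real.exp 2), hX, hT0.trans (le_max_left _ _), ?_⟩
  intro t n ht hn
  have ht1 : T0 ≤ t := (le_max_left _ _).trans ht
  have ht2 : Real.exp 2 ≤ t := (le_max_right _ _).trans ht
  have htpos : 0 < t := by linarith
  have h3 := (Real.le_log_iff_exp_le htpos).2 ht2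
  have hOm : Om t = Real.log t / 2 := rfl
  have hOm1 : 1 ≤ Om t := by rw [hOm]; linarith
  have hXO : 1 ≤ X * Om t := by nlinarith
  have hc1 : X * Om t ≤ ⌈X * Om t⌉₊ := Nat.le_ceil _
  have hc2 : (⌈X * Om t⌉₊ : ℝ) < X * Om t + 1 := Nat.ceil_lt_add_one (by linarith)
  refine lc_pos (n1 := ⌈X * Om t⌉₊) ?_ n (Nat.ceil_le.2 hn)
  intro x hx hxr
  exact H t _ ht1 hc1 (by linarith) x (par_one hx hxr)

/-- nonvanishing beyond `r0 Om t` -/
theorem far_ne (h1 : S_HH) (h2 : S_PL) (hZ' : ZB (1 / 2)) {y r0 : ℝ} (hy0 : 0 ≤ y) (hy1 : y ≤ 1 / 2)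
    (hZ : ZB y) (hyr : y < r0) : ∃ T0 : ℝ, 2 ≤ T0 ∧ ∀ (t : ℝ) (n : ℕ), T0 ≤ t → r0 * Om t ≤ n →
    LC n t ≠ 0 := by
  have hr0 : 0 < r0 := by linarith
  obtain ⟨X, T1, hX, hT1, H1⟩ := far_pos h1 h2 hZ'
  have key : ∀ k : ℕ, ∃ T0 : ℝ, 2 ≤ T0 ∧ ∀ (t : ℝ) (n : ℕ), T0 ≤ t → r0 * Om t ≤ n →
      (n : ℝ) ≤ 2 ^ k * r0 * Om t → iteratedDeriv n (FT t) 0 ≠ 0 := by
    intro k
    induction k with
    | zero =>
      obtain ⟨T0, hT0, H0⟩ := wind0 h1 h2 hy0 hy1 hZ hyr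
      refine ⟨T0, hT0, fun t n ht hn1 hn2 => H0 t n ht hn1 ?_⟩
      rw [pow_zero, one_mul] at hn2
      have : 0 ≤ r0 * Om t := by
        have : 0 ≤ Real.log t := Real.log_nonneg (by linarith)
        have h3 : Om t = Real.log t / 2 := rfl
        rw [h3]; positivity
      linarith
    | succ k ih =>
      obtain ⟨T0, hT0, H0⟩ := ih
      have hk : y < 2 ^ k * r0 := by
        have : (1 : ℝ) ≤ 2 ^ k := one_le_pow₀ (by norm_num)
        nlinarith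
      obtain ⟨T2, hT2, H2⟩ := wind0 h1 h2 hy0 hy1 hZ hk
      refine ⟨max T0 T2, hT0.trans (le_max_left _ _), fun t n ht hn1 hn2 => ?_⟩
      rcases le_total (n : ℝ) (2 ^ k * r0 * Om t) with h | h
      · exact H0 t n ((le_max_left _ _).trans ht) hn1 h
      · refine H2 t n ((le_max_right _ _).trans ht) h ?_
        rw [pow_succ] at hn2
        linarith
  obtain ⟨k, hk⟩ := pow_unbounded_of_one_lt (X / r0) (show (1 : ℝ) < 2 by norm_num)
  rw [div_lt_iff₀ hr0] at hk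
  obtain ⟨T0, hT0, H0⟩ := key k
  refine ⟨max T0 T1, hT0.trans (le_max_left _ _), fun t n ht hn => ?_⟩
  rcases le_total (n : ℝ) (X * Om t) with h | h
  · intro h0
    have htt : T0 ≤ t := (le_max_left _ _).trans ht
    refine H0 t n htt hn ?_ (by rw [FT_iter_real, h0]; simp)
    have hOm0 : 0 ≤ Om t := by
      have : 0 ≤ Real.log t := Real.log_nonneg (by linarith)
      have h3 : Om t = Real.log t / 2 := rfl
      rw [h3]; positivity
    exact h.trans (mul_le_mul_of_nonneg_right hk.le hOm0)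
  · exact (H1 t n ((le_max_right _ _).trans ht) h).ne'

/-- **The forward theorem.** -/
theorem pos_main (h1 : S_HH) (h2 : S_PL) (hZ' : ZB (1 / 2)) {y κ : ℝ} (hy0 : 0 ≤ y) (hy1 : y ≤ 1 / 2)
    (hZ : ZB y) (hκ : κ * y < 2) : ∃ N : ℕ, ∀ n : ℕ, N ≤ n → ∀ x : ℝ, |x| ≤ Real.exp (κ * n) →
    0 < LC n x := by
  obtain ⟨r0, hr0, hyr, hκr⟩ : ∃ r0 : ℝ, 0 < r0 ∧ y < r0 ∧ κ * r0 ≤ 2 := by
    rcases le_or_gt κ 0 with h | h
    · exact ⟨y + 1, by linarith, by linarith, by nlinarith⟩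
    · have h3 : y < 2 / κ := by rw [lt_div_iff₀ h]; linarith
      refine ⟨2 / κ, by positivity, h3, ?_⟩
      rw [mul_div_cancel₀ _ h.ne']
  obtain ⟨T0, hT0, H0⟩ := far_ne h1 h2 hZ' hy0 hy1 hZ hyr
  obtain ⟨N0, HN0⟩ := unif T0
  refine ⟨N0, fun n hn x hx => ?_⟩
  -- bounded heights
  have hb : ∀ t : ℝ, |t| ≤ T0 → 0 < LC n t := by
    intro t ht
    obtain ⟨n1, hn1, hz⟩ := HN0 t ht
    exact lc_pos (n1 := n1) (fun x hx hxr => hz x (par_one hx hxr)) n (hn1.trans hn)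
  wlog hx0 : 0 ≤ x generalizing x with H
  · have := H (-x) (by rwa [abs_neg]) (by linarith)
    rwa [LC_neg] at this
  rcases le_total x T0 with hxT | hxT
  · exact hb x (by rwa [abs_of_nonneg hx0])
  · -- intermediate value theorem
    rw [abs_of_nonneg hx0] at hx
    have hxpos : 0 < x := by linarith
    have hlog : Real.log x ≤ κ * n := (Real.log_le_iff_le_exp hxpos).2 hx
    have hne : ∀ t ∈ Icc T0 x, LC n t ≠ 0 := by
      intro t ht
      apply H0 t n ht.1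
      have ht0 : 0 < t := by linarith [ht.1]
      have h3 : Real.log t ≤ Real.log x := Real.log_le_log ht0 ht.2
      have h4 : Om t = Real.log t / 2 := rfl
      have hn0 : (0 : ℝ) ≤ n := Nat.cast_nonneg n
      rw [h4]
      have h5 : r0 * Real.log t ≤ r0 * (κ * n) := mul_le_mul_of_nonneg_left (by linarith) hr0.le
      have h6 : (κ * r0) * n ≤ 2 * n := mul_le_mul_of_nonneg_right hκr hn0
      linarith
    have h3 : 0 < LC n T0 := hb T0 (by rw [abs_of_nonneg (by linarith)])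
    by_contra hcon
    have h4 : LC n x ≤ 0 := not_lt.1 hcon
    obtain ⟨t, ht, ht0⟩ := intermediate_value_Icc' hxT (LC_cont n).continuousOn ⟨h4, h3.le⟩
    exact hne t ht ht0

end Pool.Agent.TH803.LG
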