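import Pool.Agent.TH803.LG.NT

/-!
# Bounded `t`: some derivative of bounded order is zero-free in the unit disc
-/

set_option autoImplicit false

namespace Pool.Agent.TH803.LG

open Complex Filter Metric Topology Set
open Pool.Agent.H24R2.JP (XX)
open Pool.Agent.H24R2.JP.B1h (XX_diff)
open Pool.Agent.H24R2.JP.ParCircAux (diff_iter)

theorem lc_bound : ∃ K : ℝ, 0 ≤ K ∧ ∀ (T0 t R : ℝ) (k : ℕ), |t| ≤ T0 → 0 < R →
    |LC k t| ≤ Real.exp (K * (2 + 2 * T0 ^ 2) ^ (3 / 4 : ℝ) * (1 + R) ^ (3 / 4 : ℝ)) / R ^ k := by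
  obtain ⟨K, hK0, hK⟩ := FT_growth
  refine ⟨K, hK0, fun T0 t R k ht hR => ?_⟩
  have h1 := Complex.norm_iteratedDeriv_le_of_forall_mem_sphere_norm_le (c := 0) (f := FT t)
    (C := Real.exp (K * (2 + 2 * T0 ^ 2) ^ (3 / 4 : ℝ) * (1 + R) ^ (3 / 4 : ℝ))) k hR
    (FT_diff t).diffContOnCl (fun z hz => by
      refine (hK t z).trans (Real.exp_le_exp.2 ?_)
      rw [mem_sphere_zero_iff_norm] at hz
      rw [hz]
      refine mul_le_mul_of_nonneg_right ?_ (by positivity)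
      refine mul_le_mul_of_nonneg_left (Real.rpow_le_rpow (by positivity) ?_ (by norm_num)) hK0
      have : t ^ 2 ≤ T0 ^ 2 := by
        rw [← sq_abs t]
        exact pow_le_pow_left₀ (abs_nonneg _) ht 2
      linarith)
  rw [FT_iter_real, Complex.norm_real, Real.norm_eq_abs, abs_mul, Nat.abs_cast] at h1
  have hf : (0 : ℝ) < k.factorial := by exact_mod_cast k.factorial_pos
  rw [mul_div_assoc] at h1
  exact le_of_mul_le_mul_left h1 hf

theorem unif (T0 : ℝ) : ∃ N0 : ℕ, ∀ t : ℝ, |t| ≤ T0 → ∃ n1, n1 ≤ N0 ∧ ∀ x : ℂ, ‖x‖ ≤ 1 →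
    iteratedDeriv n1 (FT t) x ≠ 0 := by
  by_cases hT : 0 ≤ T0
  swap
  · refine ⟨0, fun t ht => absurd ht (not_le.2 (lt_of_lt_of_le (not_le.1 hT) (abs_nonneg t)))⟩
  obtain ⟨K, hK0, hK⟩ := lc_bound
  set K' : ℝ := K * (2 + 2 * T0 ^ 2) ^ (3 / 4 : ℝ) with hK'
  have hK'0 : 0 ≤ K' := by positivity
  -- lower bound for the value at 1
  obtain ⟨δ, hδ, hδb⟩ : ∃ δ : ℝ, 0 < δ ∧ ∀ t : ℝ, |t| ≤ T0 → δ ≤ ‖XX (I * t + 1)‖ ^ 2 := by
    have hc : Continuous fun t : ℝ => ‖XX (I * t + 1)‖ ^ 2 :=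
      (XX_diff.continuous.comp (by fun_prop)).norm.pow 2
    obtain ⟨t0, -, hmin⟩ := (isCompact_Icc (a := -T0) (b := T0)).exists_isMinOn
      ⟨0, by constructor <;> linarith⟩ hc.continuousOn
    refine ⟨‖XX (I * t0 + 1)‖ ^ 2, ?_, fun t ht => hmin (abs_le.1 ht)⟩
    have : XX (I * t0 + 1) ≠ 0 := XX_ne (by simp; norm_num)
    positivity
  obtain ⟨N1, hN1⟩ := exists_nat_ge ((33 * K') ^ 4)
  obtain ⟨N2, hN2⟩ := exists_pow_lt_of_lt_one (show 0 < δ / 4 by positivity) (show (1 / 2 : ℝ) < 1 by norm_num)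
  obtain ⟨N0, hN0⟩ : ∃ N0 : ℕ, N0 = max 1 (max N1 N2) := ⟨_, rfl⟩
  have h01 : 1 ≤ N0 := by rw [hN0]; exact le_max_left _ _
  have h02 : N1 ≤ N0 := by rw [hN0]; exact (le_max_left _ _).trans (le_max_right _ _)
  have h03 : N2 ≤ N0 := by rw [hN0]; exact (le_max_right _ _).trans (le_max_right _ _)
  have htail : ∀ (t : ℝ) (k : ℕ), |t| ≤ T0 → N0 ≤ k → |LC k t| * k.factorial * 4 ^ k < δ / 4 := by
    intro t k ht hk
    have hk1 : (1 : ℝ) ≤ k := by exact_mod_cast h01.trans hk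
    have hk2 : (33 * K') ^ 4 ≤ (k : ℝ) := hN1.trans (by exact_mod_cast h02.trans hk)
    have hR : (0 : ℝ) < 32 * k := by positivity
    have h1 := hK T0 t (32 * k) k ht hR
    rw [← hK'] at h1
    have h2 : K' * (1 + 32 * (k : ℝ)) ^ (3 / 4 : ℝ) ≤ k := by
      have e1 : (1 + 32 * (k : ℝ)) ^ (3 / 4 : ℝ) ≤ 33 * (k : ℝ) ^ (3 / 4 : ℝ) := by
        calc (1 + 32 * (k : ℝ)) ^ (3 / 4 : ℝ) ≤ (33 * (k : ℝ)) ^ (3 / 4 : ℝ) :=
              Real.rpow_le_rpow (by positivity) (by linarith) (by norm_num)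
          _ = 33 ^ (3 / 4 : ℝ) * (k : ℝ) ^ (3 / 4 : ℝ) := Real.mul_rpow (by norm_num) (by positivity)
          _ ≤ 33 * (k : ℝ) ^ (3 / 4 : ℝ) := by
              refine mul_le_mul_of_nonneg_right ?_ (by positivity)
              calc (33 : ℝ) ^ (3 / 4 : ℝ) ≤ 33 ^ (1 : ℝ) :=
                    Real.rpow_le_rpow_of_exponent_le (by norm_num) (by norm_num)
                _ = 33 := Real.rpow_one 33
      have e2 : 33 * K' ≤ (k : ℝ) ^ (1 / 4 : ℝ) := by
        have h3 : ((33 * K') ^ 4) ^ (1 / 4 : ℝ) ≤ (k : ℝ) ^ (1 / 4 : ℝ) :=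
          Real.rpow_le_rpow (by positivity) hk2 (by norm_num)
        have h4 : ((33 * K') ^ 4) ^ (1 / 4 : ℝ) = 33 * K' := by
          rw [← Real.rpow_natCast (33 * K') 4, ← Real.rpow_mul (by positivity)]
          norm_num
        rwa [h4] at h3
      calc K' * (1 + 32 * (k : ℝ)) ^ (3 / 4 : ℝ) ≤ K' * (33 * (k : ℝ) ^ (3 / 4 : ℝ)) :=
            mul_le_mul_of_nonneg_left e1 hK'0
        _ = (33 * K') * (k : ℝ) ^ (3 / 4 : ℝ) := by ring
        _ ≤ (k : ℝ) ^ (1 / 4 : ℝ) * (k : ℝ) ^ (3 / 4 : ℝ) :=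
            mul_le_mul_of_nonneg_right e2 (by positivity)
        _ = k := by
            rw [← Real.rpow_add (by linarith)]
            norm_num
    have h3 : (k.factorial : ℝ) ≤ (k : ℝ) ^ k := by exact_mod_cast Nat.factorial_le_pow k
    have h4 : |LC k t| * k.factorial * 4 ^ k ≤ (1 / 2 : ℝ) ^ k := by
      calc |LC k t| * k.factorial * 4 ^ k ≤
            (Real.exp (K' * (1 + 32 * (k : ℝ)) ^ (3 / 4 : ℝ)) / (32 * k) ^ k) * (k : ℝ) ^ k * 4 ^ k := by
            gcongr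
        _ = Real.exp (K' * (1 + 32 * (k : ℝ)) ^ (3 / 4 : ℝ)) * (1 / 8 : ℝ) ^ k := by
            have e1 : (32 * (k : ℝ)) ^ k = 8 ^ k * 4 ^ k * (k : ℝ) ^ k := by
              rw [← mul_pow, ← mul_pow]; norm_num
            rw [e1, one_div, inv_pow]
            have : (k : ℝ) ^ k ≠ 0 := by positivity
            field_simp
        _ ≤ Real.exp k * (1 / 8 : ℝ) ^ k := by gcongr
        _ = (Real.exp 1 / 8) ^ k := by
            have e2 : Real.exp (k : ℝ) = Real.exp 1 ^ k := by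
              rw [← Real.exp_nat_mul, mul_one]
            rw [e2, ← mul_pow]
            congr 1
            ring
        _ ≤ (1 / 2 : ℝ) ^ k := by
            apply pow_le_pow_left₀ (by positivity)
            have := Real.exp_one_lt_d9
            linarith
    have h5 : (1 / 2 : ℝ) ^ k ≤ (1 / 2 : ℝ) ^ N2 :=
      pow_le_pow_of_le_one (by norm_num) (by norm_num) (h03.trans hk)
    linarith
  refine ⟨N0, fun t ht => ?_⟩
  obtain ⟨n1, hn1, hmax⟩ := Finset.exists_max_image (Finset.range (N0 + 1))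
    (fun k => |LC k t| * k.factorial * 4 ^ k) ⟨0, by simp⟩
  rw [Finset.mem_range] at hn1
  -- some coefficient is large
  have hlarge : ∃ k, δ / 4 ≤ |LC k t| * k.factorial * 4 ^ k := by
    by_contra hcon
    push Not at hcon
    have h1 := hasSum_EE t 1
    have h2 : ∀ k : ℕ, LC k t * 1 ^ (2 * k) ≤ δ / 4 * (1 / 2) ^ k := by
      intro k
      rw [one_pow, mul_one]
      have h3 := (hcon k).le
      have h4 : |LC k t| * 2 ^ k ≤ |LC k t| * k.factorial * 4 ^ k := by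
        have f1 : (1 : ℝ) ≤ k.factorial := by exact_mod_cast k.factorial_pos
        have f2 : (2 : ℝ) ^ k ≤ 4 ^ k := by gcongr; norm_num
        calc |LC k t| * 2 ^ k = |LC k t| * 1 * 2 ^ k := by ring
          _ ≤ _ := by gcongr
      have h5 : |LC k t| * 2 ^ k ≤ δ / 4 := h4.trans h3
      rw [one_div, inv_pow, ← div_eq_mul_inv, le_div_iff₀ (by positivity)]
      exact (mul_le_mul_of_nonneg_right (le_abs_self _) (by positivity)).trans h5
    have h3 := (hasSum_geometric_two).mul_left (δ / 4)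
    have h4 := hasSum_le h2 h1 h3
    have h5 := hδb t ht
    simp only [Complex.ofReal_one] at h4
    linarith
  obtain ⟨k0, hk0⟩ := hlarge
  have hk0N : k0 < N0 + 1 := by
    by_contra hcon
    have := htail t k0 ht (by omega)
    linarith
  have hn1large : δ / 4 ≤ |LC n1 t| * n1.factorial * 4 ^ n1 :=
    hk0.trans (hmax k0 (Finset.mem_range.2 hk0N))
  have hall : ∀ k, |LC k t| * k.factorial * 4 ^ k ≤ |LC n1 t| * n1.factorial * 4 ^ n1 := by
    intro k
    by_cases hk : k < N0 + 1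
    · exact hmax k (Finset.mem_range.2 hk)
    · exact (htail t k ht (by omega)).le.trans hn1large
  refine ⟨n1, by omega, fun x hx h0 => ?_⟩
  -- the Taylor series
  have hser := hasSum_taylorSeries_of_entire (diff_iter (FT_diff t) n1) 0 x
  rw [h0] at hser
  have hg0 : ‖iteratedDeriv n1 (FT t) 0‖ = |LC n1 t| * n1.factorial := by
    rw [FT_iter_real, Complex.norm_real, Real.norm_eq_abs, abs_mul, Nat.abs_cast]
    ring
  have hterm : ∀ j : ℕ, ‖((j.factorial : ℂ))⁻¹ • (x - 0) ^ j • iteratedDeriv j (iteratedDeriv n1 (FT t)) 0‖ ≤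
      ‖iteratedDeriv n1 (FT t) 0‖ * (1 / 4) ^ j := by
    intro j
    have e1 : iteratedDeriv j (iteratedDeriv n1 (FT t)) 0 = iteratedDeriv (n1 + j) (FT t) 0 := by
      rw [Nat.add_comm, iteratedDeriv_eq_iterate, iteratedDeriv_eq_iterate, iteratedDeriv_eq_iterate,
        Function.iterate_add_apply]
    rw [e1, sub_zero, smul_eq_mul, smul_eq_mul, norm_mul, norm_mul, norm_inv, norm_pow,
      Complex.norm_natCast]
    have h1 : ‖iteratedDeriv (n1 + j) (FT t) 0‖ ≤ ‖iteratedDeriv n1 (FT t) 0‖ * (1 / 4) ^ j := by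
      have h2 := hall (n1 + j)
      rw [hg0, FT_iter_real, Complex.norm_real, Real.norm_eq_abs, abs_mul, Nat.abs_cast]
      rw [pow_add] at h2
      have h3 : |LC (n1 + j) t| * (n1 + j).factorial * 4 ^ j ≤ |LC n1 t| * n1.factorial := by
        have h4 : (0 : ℝ) < 4 ^ n1 := by positivity
        have h5 : |LC (n1 + j) t| * (n1 + j).factorial * 4 ^ j * 4 ^ n1 ≤
            |LC n1 t| * n1.factorial * 4 ^ n1 := by
          calc _ = |LC (n1 + j) t| * (n1 + j).factorial * (4 ^ n1 * 4 ^ j) := by ring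
            _ ≤ _ := h2
        exact le_of_mul_le_mul_right h5 h4
      rw [one_div, inv_pow, ← div_eq_mul_inv, le_div_iff₀ (by positivity)]
      linarith
    have h6 : ((j.factorial : ℝ))⁻¹ ≤ 1 := by
      apply inv_le_one_of_one_le₀
      exact_mod_cast j.factorial_pos
    have h7 : ‖x‖ ^ j ≤ 1 := pow_le_one₀ (norm_nonneg _) hx
    calc ((j.factorial : ℝ))⁻¹ * (‖x‖ ^ j * ‖iteratedDeriv (n1 + j) (FT t) 0‖)
        ≤ 1 * (1 * (‖iteratedDeriv n1 (FT t) 0‖ * (1 / 4) ^ j)) := by gcongr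
      _ = _ := by ring
  have h1 := (hasSum_nat_add_iff' 1).2 hser
  have hgeo : HasSum (fun j : ℕ => ‖iteratedDeriv n1 (FT t) 0‖ * (1 / 4) ^ (j + 1))
      (‖iteratedDeriv n1 (FT t) 0‖ * (1 / 3)) := by
    have h2 := (hasSum_geometric_of_lt_one (r := (1 / 4 : ℝ)) (by norm_num) (by norm_num)).mul_left
      (‖iteratedDeriv n1 (FT t) 0‖ * (1 / 4))
    have e : ‖iteratedDeriv n1 (FT t) 0‖ * (1 / 4) * (1 - 1 / 4)⁻¹ =
        ‖iteratedDeriv n1 (FT t) 0‖ * (1 / 3) := by norm_num; ring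
    rw [e] at h2
    have e2 : (fun j : ℕ => ‖iteratedDeriv n1 (FT t) 0‖ * (1 / 4) ^ (j + 1)) =
        fun j : ℕ => ‖iteratedDeriv n1 (FT t) 0‖ * (1 / 4) * (1 / 4) ^ j := by
      funext j
      rw [pow_succ]
      ring
    rw [e2]
    exact h2
  have h2 := tsum_of_norm_bounded hgeo (fun j => hterm (j + 1))
  rw [h1.tsum_eq] at h2
  simp only [Finset.range_one, Finset.sum_singleton, Nat.factorial_zero, Nat.cast_one, inv_one,
    pow_zero, one_smul, iteratedDeriv_zero, zero_sub, norm_neg] at h2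
  have h3 : 0 < ‖iteratedDeriv n1 (FT t) 0‖ := by
    rw [hg0]
    by_contra hcon
    have h4 : |LC n1 t| * n1.factorial = 0 := le_antisymm (not_lt.1 hcon) (by positivity)
    rw [h4] at hn1large
    linarith
  linarith

end Pool.Agent.TH803.LG
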